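import Pool.Agent.R194.Raj.Step

open MeasureTheory AddCircle Filter Topology ComplexConjugate
open scoped Real BigOperators ZeroAtInfty

namespace Pool.Agent.R194.Raj

variable {T : ℝ} [hT : Fact (0 < T)]

/-- positive definite finitely supported sequences, inside `C₀(ℤ)` -/
def YY (T : ℝ) : Set (C₀(ℤ, ℂ)) := {f | ∃ d : ℕ, Dens T d f}

lemma tendsto_of_dens {d : ℕ} {a : ℤ → ℂ} (h : ∀ n : ℤ, (d:ℤ) < |n| → a n = 0) :
    Tendsto a (cocompact ℤ) (𝓝 0) := by
  rw [Filter.cocompact_eq_cofinite]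
  refine Filter.EventuallyEq.tendsto ?_
  rw [Filter.EventuallyEq, Filter.eventually_cofinite]
  refine (Set.finite_Icc (-(d:ℤ)) d).subset ?_
  intro n hn
  by_contra hcon
  apply hn
  apply h
  rw [Set.mem_Icc, ← abs_le] at hcon
  omega

/-- the element of `C₀(ℤ)` attached to a finitely supported sequence -/
def mkC {d : ℕ} {a : ℤ → ℂ} (h : ∀ n : ℤ, (d:ℤ) < |n| → a n = 0) : C₀(ℤ, ℂ) where
  toFun := a
  continuous_toFun := continuous_of_discreteTopology
  zero_at_infty' := tendsto_of_dens h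

lemma dist_le_of {f g : C₀(ℤ, ℂ)} {r : ℝ} (hr : 0 ≤ r) (h : ∀ n, ‖f n - g n‖ ≤ r) : dist f g ≤ r := by
  rw [← ZeroAtInftyContinuousMap.dist_toBCF_eq_dist, BoundedContinuousFunction.dist_le hr]
  intro n
  rw [dist_eq_norm]
  exact h n

lemma continuous_eval (n : ℤ) : Continuous (fun f : C₀(ℤ, ℂ) => f n) := by
  have h1 : Continuous (fun f : C₀(ℤ, ℂ) => f.toBCF) := ZeroAtInftyContinuousMap.isometry_toBCF.continuous
  exact (continuous_eval_const (F := BoundedContinuousFunction ℤ ℂ) n).comp h1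

lemma continuous_nrm_W (S : Finset ℤ) (F : ℤ → ℂ) (lam : ℂ) :
    Continuous (fun f : C₀(ℤ, ℂ) => nrm (W S (fun n => (f n - lam) * F n) : C(AddCircle T, ℂ))) := by
  refine nrm_continuous.comp ?_
  unfold W
  refine continuous_finsetSum _ fun n _ => ?_
  exact (((continuous_eval n).sub continuous_const).mul continuous_const).smul continuous_const

lemma dens_delta (T : ℝ) : Dens T 0 (fun n => if n = 0 then 1 else 0) := by
  refine ⟨?_, by simp, ?_⟩
  · intro n hn
    have : n ≠ 0 := by rintro rfl; simp at hn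
    simp [this]
  · intro t
    refine ⟨1, by norm_num, ?_⟩
    simp [W_apply]

lemma exists_generic (T : ℝ) [hT : Fact (0 < T)] :
    ∃ a : C₀(ℤ, ℂ), a ∈ closure (YY T) ∧ ∀ lam : ℂ, ‖lam‖ ≤ 1 → ∀ η : ℝ, 0 < η →
      ∃ S : Finset ℤ, (∀ n ∈ S, 1 ≤ n) ∧ ∃ F : ℤ → ℂ, 0 < nrm (W S F : C(AddCircle T, ℂ)) ∧
        nrm (W S (fun n => (a n - lam) * F n) : C(AddCircle T, ℂ)) ≤ η * nrm (W S F : C(AddCircle T, ℂ)) := by
  classical
  have : CompleteSpace (closure (YY T)) := isClosed_closure.completeSpace_coe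
  have : Nonempty (closure (YY T)) :=
    ⟨⟨mkC (dens_delta T).1, subset_closure ⟨0, dens_delta T⟩⟩⟩
  have : Nonempty (Metric.closedBall (0:ℂ) 1) := ⟨⟨0, by simp⟩⟩
  set L : ℕ → Metric.closedBall (0:ℂ) 1 := TopologicalSpace.denseSeq _ with hL
  set U : ℕ × ℕ → Set (closure (YY T)) := fun p => {x | ∃ S : Finset ℤ, (∀ n ∈ S, 1 ≤ n) ∧
    ∃ F : ℤ → ℂ, nrm (W S (fun n => (x.1 n - (L p.1 : ℂ)) * F n) : C(AddCircle T, ℂ)) <
      (1 / ((p.2:ℝ) + 1)) * nrm (W S F : C(AddCircle T, ℂ))} with hU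
  have hopen : ∀ p, IsOpen (U p) := by
    intro p
    have : U p = ⋃ (S : Finset ℤ) (_ : ∀ n ∈ S, 1 ≤ n) (F : ℤ → ℂ), {x : closure (YY T) |
        nrm (W S (fun n => (x.1 n - (L p.1 : ℂ)) * F n) : C(AddCircle T, ℂ)) <
      (1 / ((p.2:ℝ) + 1)) * nrm (W S F : C(AddCircle T, ℂ))} := by
      ext x
      simp only [hU, Set.mem_iUnion, Set.mem_ofPred_eq, exists_prop]
    rw [this]
    refine isOpen_iUnion fun S => isOpen_iUnion fun _ => isOpen_iUnion fun F => ?_
    exact isOpen_lt ((continuous_nrm_W S F _).comp continuous_subtype_val) continuous_const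
  have hdense : ∀ p, Dense (U p) := by
    intro p
    rw [Metric.dense_iff]
    rintro ⟨x, hx⟩ r hr
    obtain ⟨y, ⟨d, hy⟩, hxy⟩ := Metric.mem_closure_iff.mp hx (r/2) (by positivity)
    obtain ⟨d', m', hm', hclose, S, hS, F, hF0, hF⟩ := step T hy (lam := (L p.1 : ℂ))
      (mem_closedBall_zero_iff.mp (L p.1).2) (ε := r / 4) (η := (1 / ((p.2:ℝ) + 1)) / 2) (by positivity) (by positivity)
    refine ⟨⟨mkC hm'.1, subset_closure ⟨d', hm'⟩⟩, ?_, ?_⟩
    · rw [Metric.mem_ball, Subtype.dist_eq]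
      have h1 : dist (mkC hm'.1) y ≤ r / 4 := dist_le_of (by positivity) hclose
      calc dist (mkC hm'.1) x ≤ dist (mkC hm'.1) y + dist y x := dist_triangle _ _ _
        _ < r := by rw [dist_comm y x]; linarith
    · refine ⟨S, hS, F, lt_of_le_of_lt hF ?_⟩
      have : 0 < 1 / ((p.2:ℝ) + 1) := by positivity
      nlinarith
  obtain ⟨x, hx⟩ := (dense_iInter_of_isOpen hopen hdense).nonempty
  refine ⟨x.1, x.2, ?_⟩
  intro lam hlam η hη
  obtain ⟨j, hj⟩ := exists_nat_gt (2 / η)
  have hjη : 1 / ((j:ℝ) + 1) ≤ η / 2 := by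
    rw [div_le_div_iff₀ (by positivity) (by positivity)]
    rw [div_lt_iff₀ hη] at hj
    linarith
  obtain ⟨i, hi⟩ : ∃ i, ‖(L i : ℂ) - lam‖ < η / 2 := by
    have h1 := TopologicalSpace.denseRange_denseSeq (Metric.closedBall (0:ℂ) 1)
    obtain ⟨i, hi⟩ := Metric.denseRange_iff.mp h1 ⟨lam, by simpa using hlam⟩ (η/2) (by positivity)
    refine ⟨i, ?_⟩
    rw [Subtype.dist_eq, dist_comm, dist_eq_norm] at hi
    exact hi
  have hxi := Set.mem_iInter.mp hx (i, j)
  obtain ⟨S, hS, F, hF⟩ := hxi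
  have hpos : 0 < nrm (W S F : C(AddCircle T, ℂ)) := by
    by_contra hcon
    push Not at hcon
    have h0 : nrm (W S F : C(AddCircle T, ℂ)) = 0 := le_antisymm hcon (nrm_nonneg _)
    rw [h0, mul_zero] at hF
    exact absurd (nrm_nonneg _) (not_le.mpr hF)
  refine ⟨S, hS, F, hpos, ?_⟩
  have e : (W S (fun n => (x.1 n - lam) * F n) : C(AddCircle T, ℂ)) =
      W S (fun n => (x.1 n - (L i : ℂ)) * F n) + ((L i : ℂ) - lam) • W S F := by
    rw [← W_smul, ← W_add]
    congr 1
    ext n; ring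
  rw [e]
  refine (nrm_add_le _ _).trans ?_
  rw [nrm_smul]
  have h1 : (1 / ((j:ℝ) + 1)) * nrm (W S F : C(AddCircle T, ℂ)) ≤ η / 2 * nrm (W S F : C(AddCircle T, ℂ)) := by
    gcongr
  have h2 : ‖(L i : ℂ) - lam‖ * nrm (W S F : C(AddCircle T, ℂ)) ≤ η / 2 * nrm (W S F : C(AddCircle T, ℂ)) := by
    gcongr
  simp only at hF
  linarith

lemma exists_measure_of_dens {d : ℕ} {m : ℤ → ℂ} (hm : Dens T d m) :
    ∃ μ : ProbabilityMeasure (AddCircle T), ∀ n : ℤ, ∫ t, fourier (-n) t ∂(μ : Measure (AddCircle T)) = m n := by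
  obtain ⟨h1, h2, h3⟩ := hm
  set P : C(AddCircle T, ℂ) := W (Finset.Icc (-(d:ℤ)) d) m with hP
  have hre : ∀ t, P t = ((P t).re : ℂ) := by
    intro t
    obtain ⟨y, _, hy⟩ := h3 t
    rw [hy]; simp
  have hnn : ∀ t, 0 ≤ (P t).re := by
    intro t
    obtain ⟨y, hy0, hy⟩ := h3 t
    rw [hy]; simpa using hy0
  have hmeas : Measurable (fun t : AddCircle T => (P t).re.toNNReal) := by
    have : Continuous (fun t : AddCircle T => (P t).re) := by fun_prop
    exact this.measurable.real_toNNReal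
  have key : ∀ n : ℤ, ∫ t, fourier (-n) t ∂((haarAddCircle (T := T)).withDensity
      (fun t => ((P t).re.toNNReal : ENNReal))) = m n := by
    intro n
    rw [integral_withDensity_eq_integral_smul hmeas]
    have e1 : ∀ t : AddCircle T, (P t).re.toNNReal • (fourier (-n) t : ℂ) =
        ∑ k ∈ Finset.Icc (-(d:ℤ)) d, m k * fourier (k - n) t := by
      intro t
      rw [NNReal.smul_def, Real.coe_toNNReal _ (hnn t), Complex.real_smul, ← hre t, hP, W_apply,
        Finset.sum_mul]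
      refine Finset.sum_congr rfl fun k _ => ?_
      rw [mul_assoc, ← fourier_add, sub_eq_add_neg]
    simp only [e1]
    rw [integral_finsetSum _ (fun k _ => integrable_of_cont (by fun_prop))]
    simp only [integral_const_mul, integral_fourier]
    by_cases hn : n ∈ Finset.Icc (-(d:ℤ)) d
    · rw [Finset.sum_eq_single_of_mem n hn]
      · simp
      · intro k _ hk
        rw [if_neg (by omega), mul_zero]
    · rw [Finset.sum_eq_zero]
      · rw [h1]
        rw [Finset.mem_Icc, ← abs_le] at hn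
        omega
      · intro k hk
        rw [if_neg, mul_zero]
        intro h
        apply hn
        have : k = n := by omega
        rw [← this]; exact hk
  have hfin : IsFiniteMeasure ((haarAddCircle (T := T)).withDensity (fun t => ((P t).re.toNNReal : ENNReal))) := by
    apply isFiniteMeasure_withDensity_ofReal (f := fun t => (P t).re)
    exact (integrable_of_cont (by fun_prop)).hasFiniteIntegral
  have hprob : IsProbabilityMeasure ((haarAddCircle (T := T)).withDensity (fun t => ((P t).re.toNNReal : ENNReal))) := by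
    have h0 := key 0
    simp only [neg_zero, fourier_zero, h2] at h0
    rw [integral_const] at h0
    constructor
    have h4 : ((haarAddCircle (T := T)).withDensity (fun t => ((P t).re.toNNReal : ENNReal))).real Set.univ = 1 := by
      simpa using h0
    rw [measureReal_def] at h4
    have h5 := (ENNReal.toReal_eq_one_iff _).mp h4
    exact h5
  exact ⟨⟨_, hprob⟩, key⟩

lemma exists_measure (T : ℝ) [hT : Fact (0 < T)] {a : C₀(ℤ, ℂ)} (ha : a ∈ closure (YY T)) :
    ∃ μ : ProbabilityMeasure (AddCircle T), ∀ n : ℤ, ∫ t, fourier (-n) t ∂(μ : Measure (AddCircle T)) = a n := by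
  obtain ⟨y, hy, hlim⟩ := mem_closure_iff_seq_limit.mp ha
  choose d hd using hy
  choose u hu using fun i => exists_measure_of_dens (T := T) (hd i)
  obtain ⟨μ, _, hμ⟩ := (isCompact_univ (X := ProbabilityMeasure (AddCircle T))).ultrafilter_le_nhds'
    (Ultrafilter.map u (hyperfilter ℕ)) Filter.univ_mem
  have hμ' : Tendsto u (hyperfilter ℕ : Filter ℕ) (𝓝 μ) := hμ
  refine ⟨μ, fun n => ?_⟩
  have h1 := (ProbabilityMeasure.tendsto_iff_forall_integral_rclike_tendsto ℂ).mp hμ'
    (BoundedContinuousFunction.mkOfCompact (fourier (-n)))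
  simp only [BoundedContinuousFunction.mkOfCompact_apply] at h1
  simp only [hu] at h1
  have h2 : Tendsto (fun i => y i n) (hyperfilter ℕ : Filter ℕ) (𝓝 (a n)) :=
    (((continuous_eval n).tendsto a).comp hlim).mono_left Nat.hyperfilter_le_atTop
  exact tendsto_nhds_unique h1 h2

end Pool.Agent.R194.Raj
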