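import Mathlib

open MeasureTheory AddCircle Filter Topology ComplexConjugate
open scoped Real BigOperators

namespace Pool.Agent.R194.Raj

variable {T : ℝ} [hT : Fact (0 < T)]

/-- the trigonometric polynomial with coefficients `b n`, `n ∈ S` -/
noncomputable def W (S : Finset ℤ) (b : ℤ → ℂ) : C(AddCircle T, ℂ) := ∑ n ∈ S, b n • fourier n

/-- the `L¹` norm of a continuous function -/
noncomputable def nrm (g : C(AddCircle T, ℂ)) : ℝ := ‖ContinuousMap.toLp (E := ℂ) 1 haarAddCircle ℂ g‖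

omit hT in
lemma W_apply (S : Finset ℤ) (b : ℤ → ℂ) (t : AddCircle T) :
    W S b t = ∑ n ∈ S, b n * fourier n t := by
  simp [W]

omit hT in
lemma W_add (S : Finset ℤ) (b c : ℤ → ℂ) : (W S (fun n => b n + c n) : C(AddCircle T, ℂ)) = W S b + W S c := by
  ext t; simp only [W_apply, ContinuousMap.add_apply, add_mul, Finset.sum_add_distrib]

omit hT in
lemma W_sub (S : Finset ℤ) (b c : ℤ → ℂ) : (W S (fun n => b n - c n) : C(AddCircle T, ℂ)) = W S b - W S c := by
  ext t; simp only [W_apply, ContinuousMap.sub_apply, sub_mul, Finset.sum_sub_distrib]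

omit hT in
lemma W_smul (S : Finset ℤ) (z : ℂ) (b : ℤ → ℂ) :
    (W S (fun n => z * b n) : C(AddCircle T, ℂ)) = z • W S b := by
  ext t; simp only [W_apply, ContinuousMap.smul_apply, smul_eq_mul, Finset.mul_sum, mul_assoc]

lemma nrm_eq (g : C(AddCircle T, ℂ)) : nrm g = ∫ t, ‖g t‖ ∂haarAddCircle := by
  unfold nrm
  rw [L1.norm_eq_integral_norm]
  refine integral_congr_ae ?_
  filter_upwards [ContinuousMap.coeFn_toLp (p := 1) (𝕜 := ℂ) haarAddCircle g] with t ht
  rw [ht]

lemma nrm_nonneg (g : C(AddCircle T, ℂ)) : 0 ≤ nrm g := norm_nonneg _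

lemma nrm_add_le (g h : C(AddCircle T, ℂ)) : nrm (g + h) ≤ nrm g + nrm h := by
  unfold nrm; rw [map_add]; exact norm_add_le _ _

lemma nrm_sub_le (g h : C(AddCircle T, ℂ)) : nrm (g - h) ≤ nrm g + nrm h := by
  unfold nrm; rw [map_sub]; exact norm_sub_le _ _

lemma nrm_smul (z : ℂ) (g : C(AddCircle T, ℂ)) : nrm (z • g) = ‖z‖ * nrm g := by
  unfold nrm; rw [map_smul]; exact norm_smul _ _

lemma nrm_sum_le {ι : Type*} (s : Finset ι) (g : ι → C(AddCircle T, ℂ)) :
    nrm (∑ i ∈ s, g i) ≤ ∑ i ∈ s, nrm (g i) := by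
  unfold nrm; rw [map_sum]; exact norm_sum_le _ _

lemma nrm_continuous : Continuous (nrm : C(AddCircle T, ℂ) → ℝ) :=
  (ContinuousMap.toLp (E := ℂ) 1 haarAddCircle ℂ).continuous.norm

lemma integrable_of_cont {E : Type*} [NormedAddCommGroup E] {f : AddCircle T → E} (hf : Continuous f) :
    Integrable f haarAddCircle :=
  hf.integrable_of_hasCompactSupport (HasCompactSupport.of_compactSpace f)

lemma nrm_fourier (n : ℤ) : nrm (fourier n : C(AddCircle T, ℂ)) = 1 := by
  rw [nrm_eq]
  have : ∀ t : AddCircle T, ‖(fourier n : C(AddCircle T, ℂ)) t‖ = 1 := by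
    intro t; rw [fourier_apply]; exact Circle.norm_coe _
  simp only [this]
  simp

lemma integral_fourier (n : ℤ) :
    ∫ t : AddCircle T, fourier n t ∂haarAddCircle = if n = 0 then 1 else 0 := by
  have h := congrFun (fourierCoeff_fourier (T := T) n) 0
  rw [fourierCoeff] at h
  simp only [neg_zero, fourier_zero, one_smul] at h
  rw [h]
  by_cases hn : n = 0
  · subst hn; simp
  · simp [hn, Ne.symm hn]

omit hT in
lemma norm_fourier_apply (n : ℤ) (t : AddCircle T) : ‖fourier n t‖ = 1 := by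
  rw [fourier_apply]; exact Circle.norm_coe _

omit hT in
lemma fourier_natpow (k : ℕ) (t : AddCircle T) : fourier (k : ℤ) t = (fourier 1 t) ^ k := by
  induction k with
  | zero => simp
  | succ k ih => rw [pow_succ, Nat.cast_succ, fourier_add, ih]

omit hT in
lemma fourier_add_arg (n : ℤ) (s t : AddCircle T) : fourier n (s + t) = fourier n s * fourier n t := by
  simp only [fourier_apply, smul_add, toCircle_add, Circle.coe_mul]

omit hT in
lemma fourier_neg_arg (n : ℤ) (t : AddCircle T) : fourier n (-t) = fourier (-n) t := by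
  simp only [fourier_apply, smul_neg, neg_smul]

omit hT in
lemma fourier_sub_arg (n : ℤ) (s t : AddCircle T) : fourier n (s - t) = fourier n s * fourier (-n) t := by
  rw [sub_eq_add_neg, fourier_add_arg, fourier_neg_arg]

omit hT in
lemma fourier_smul_arg (n q : ℤ) (t : AddCircle T) : fourier n (q • t) = fourier (q * n) t := by
  simp only [fourier_apply, smul_smul, mul_comm]

omit hT in
lemma fourier_sum_arg {ι : Type*} (s : Finset ι) (n : ℤ) (f : ι → AddCircle T) :
    fourier n (∑ i ∈ s, f i) = ∏ i ∈ s, fourier n (f i) := by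
  classical
  induction s using Finset.induction_on with
  | empty => simp
  | insert a s ha ih => rw [Finset.sum_insert ha, Finset.prod_insert ha, fourier_add_arg, ih]

omit hT in
lemma fourier_nsmul_arg (n : ℤ) (k : ℕ) (t : AddCircle T) : fourier n (k • t) = (fourier n t) ^ k := by
  induction k with
  | zero => simp
  | succ k ih => rw [succ_nsmul, fourier_add_arg, ih, pow_succ]

/-- convolving with a discrete probability does not increase the norm -/
lemma nrm_mul_le {J : ℕ} (hJ : 0 < J) (x : Fin J → AddCircle T) (S : Finset ℤ) (b : ℤ → ℂ) :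
    nrm (W S (fun n => ((J : ℂ)⁻¹ * ∑ j, fourier (-n) (x j)) * b n) : C(AddCircle T, ℂ)) ≤
      nrm (W S b : C(AddCircle T, ℂ)) := by
  have hJ' : (J : ℝ) ≠ 0 := by positivity
  rw [nrm_eq, nrm_eq]
  have key : ∀ t : AddCircle T, ‖W S (fun n => ((J : ℂ)⁻¹ * ∑ j, fourier (-n) (x j)) * b n) t‖ ≤
      (J : ℝ)⁻¹ * ∑ j, ‖W S b (t - x j)‖ := by
    intro t
    have : W S (fun n => ((J : ℂ)⁻¹ * ∑ j, fourier (-n) (x j)) * b n) t =
        (J : ℂ)⁻¹ * ∑ j, W S b (t - x j) := by
      simp only [W_apply, fourier_sub_arg]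
      rw [Finset.sum_comm (s := (Finset.univ : Finset (Fin J))), Finset.mul_sum]
      refine Finset.sum_congr rfl fun n _ => ?_
      rw [mul_assoc, mul_assoc, Finset.sum_mul]
      congr 1
      refine Finset.sum_congr rfl fun j _ => ?_
      ring
    rw [this, norm_mul, norm_inv, Complex.norm_natCast]
    gcongr
    exact norm_sum_le _ _
  calc ∫ t, ‖W S (fun n => ((J : ℂ)⁻¹ * ∑ j, fourier (-n) (x j)) * b n) t‖ ∂haarAddCircle
      ≤ ∫ t, (J : ℝ)⁻¹ * ∑ j, ‖W S b (t - x j)‖ ∂(haarAddCircle (T := T)) := by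
        refine integral_mono (integrable_of_cont (by fun_prop)) (integrable_of_cont (by fun_prop)) key
    _ = (J : ℝ)⁻¹ * ∑ j : Fin J, ∫ t, ‖W S b (t - x j)‖ ∂(haarAddCircle (T := T)) := by
        rw [integral_const_mul, integral_finsetSum]
        intro j _
        exact integrable_of_cont (by fun_prop)
    _ = (J : ℝ)⁻¹ * ∑ j : Fin J, ∫ t, ‖W S b t‖ ∂(haarAddCircle (T := T)) := by
        congr 1
        refine Finset.sum_congr rfl fun j _ => ?_
        exact integral_sub_right_eq_self (fun t => ‖W S b t‖) (x j)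
    _ = ∫ t, ‖W S b t‖ ∂(haarAddCircle (T := T)) := by
        simp only [Finset.sum_const, Finset.card_univ, Fintype.card_fin, nsmul_eq_mul]
        rw [← mul_assoc, inv_mul_cancel₀ hJ', one_mul]

/-- `r n` -/
noncomputable def rr {J : ℕ} (x : Fin J → AddCircle T) (n : ℤ) : ℂ := (J : ℂ)⁻¹ * ∑ j, fourier (-n) (x j)

lemma nrm_pow_le {J : ℕ} (hJ : 0 < J) (x : Fin J → AddCircle T) (S : Finset ℤ) (b : ℤ → ℂ) (k : ℕ) :
    nrm (W S (fun n => rr x n ^ k * b n) : C(AddCircle T, ℂ)) ≤
      nrm (W S b : C(AddCircle T, ℂ)) := by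
  induction k with
  | zero => simp
  | succ k ih =>
    refine le_trans (le_of_eq ?_) ((nrm_mul_le hJ x S (fun n => rr x n ^ k * b n)).trans ih)
    congr 2
    ext n
    rw [rr, pow_succ]
    ring

omit hT in
lemma norm_rr_le {J : ℕ} (hJ : 0 < J) (x : Fin J → AddCircle T) (n : ℤ) : ‖rr x n‖ ≤ 1 := by
  rw [rr, norm_mul, norm_inv, Complex.norm_natCast]
  have : ‖∑ j, fourier (-n) (x j)‖ ≤ J := by
    refine (norm_sum_le _ _).trans ?_
    simp only [norm_fourier_apply]
    simp
  calc (J : ℝ)⁻¹ * ‖∑ j, fourier (-n) (x j)‖ ≤ (J : ℝ)⁻¹ * J := by gcongr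
    _ = 1 := inv_mul_cancel₀ (by positivity)

omit hT in
lemma rr_zero {J : ℕ} (hJ : 0 < J) (x : Fin J → AddCircle T) : rr x 0 = 1 := by
  have hJ' : (J : ℂ) ≠ 0 := by exact_mod_cast hJ.ne'
  simp [rr, hJ']

omit hT in
lemma rr_neg {J : ℕ} (x : Fin J → AddCircle T) (n : ℤ) : rr x (-n) = conj (rr x n) := by
  simp only [rr, map_mul, map_inv₀, map_sum, Complex.conj_natCast, ← fourier_neg]

end Pool.Agent.R194.Raj
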