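import Pool.Agent.R194.Raj.Rand

open MeasureTheory AddCircle Filter Topology ComplexConjugate
open scoped Real BigOperators

namespace Pool.Agent.R194.Raj

variable {T : ℝ} [hT : Fact (0 < T)]

omit hT in
lemma rr_pow {J : ℕ} (x : Fin J → AddCircle T) (n : ℤ) (k : ℕ) :
    rr x n ^ k = ((J:ℂ)⁻¹) ^ k * ∑ v ∈ Finset.piAntidiag (Finset.univ : Finset (Fin J)) k,
      (Nat.multinomial Finset.univ v : ℂ) * fourier (-n) (tau x v) := by
  unfold rr
  rw [mul_pow, Finset.sum_pow_eq_sum_piAntidiag]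
  simp only [fourier_tau]

lemma sum_multinomial (J k : ℕ) :
    ∑ v ∈ Finset.piAntidiag (Finset.univ : Finset (Fin J)) k, Nat.multinomial Finset.univ v = J ^ k := by
  have h := Finset.sum_pow_eq_sum_piAntidiag (Finset.univ : Finset (Fin J)) (fun _ => (1:ℕ)) k
  simp at h
  rw [h]

lemma card_piAntidiag_le (J k : ℕ) :
    (Finset.piAntidiag (Finset.univ : Finset (Fin J)) k).card ≤ J ^ k := by
  rw [← sum_multinomial, Finset.card_eq_sum_ones]
  exact Finset.sum_le_sum fun v _ => Nat.multinomial_pos _ _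

/-- the test sequence -/
noncomputable def FF {J : ℕ} (x : Fin J → AddCircle T) (ω : ℂ) (K M : ℕ) (n : ℤ) : ℂ :=
  (∑ k ∈ Finset.range K, (ω⁻¹) ^ k * rr x n ^ k) * Gc M n

lemma FF_lower {J : ℕ} (hJ : 0 < J) (x : Fin J → AddCircle T) {ω : ℂ} (hω : ‖ω‖ = 1) (K : ℕ) {M : ℕ}
    (hM : 0 < M) {Δ : ℝ} (hΔ : 0 < Δ) (hMΔ : 64 ≤ M * Δ ^ 2)
    (hsep : ∀ v w : Fin J → ℕ, v ≠ w → ∑ j, v j < K → ∑ j, w j < K →
      Δ ≤ ‖fourier 1 (tau x v) - fourier 1 (tau x w)‖) :
    (K:ℝ) / 2 ≤ nrm (W (Finset.Icc 1 (2 * M : ℤ)) (FF x ω K M) : C(AddCircle T, ℂ)) := by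
  classical
  have hJ' : (J:ℝ) ≠ 0 := by positivity
  set V : Finset ((_ : ℕ) × (Fin J → ℕ)) :=
    (Finset.range K).sigma (fun k => Finset.piAntidiag (Finset.univ : Finset (Fin J)) k) with hV
  set c : ((_ : ℕ) × (Fin J → ℕ)) → ℂ := fun v =>
    (ω⁻¹) ^ v.1 * (((J:ℂ)⁻¹) ^ v.1 * (Nat.multinomial Finset.univ v.2 : ℂ)) with hc
  have h := lower_bound (T := T) V c (fun v => tau x v.2) hΔ ?_ hM hMΔ
    (W (Finset.Icc 1 (2 * M : ℤ)) (FF x ω K M)) ?_
  · refine le_trans (le_of_eq ?_) h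
    congr 1
    rw [hV, Finset.sum_sigma]
    have : ∀ k ∈ Finset.range K, ∑ v ∈ Finset.piAntidiag (Finset.univ : Finset (Fin J)) k,
        ‖c ⟨k, v⟩‖ = 1 := by
      intro k _
      simp only [hc, norm_mul, norm_pow, norm_inv, hω, inv_one, one_pow, one_mul, Complex.norm_natCast]
      rw [← Finset.mul_sum]
      have h2 : (∑ v ∈ Finset.piAntidiag (Finset.univ : Finset (Fin J)) k,
        (Nat.multinomial Finset.univ v : ℝ)) = (J:ℝ) ^ k := by
        exact_mod_cast sum_multinomial J k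
      rw [h2, ← mul_pow, inv_mul_cancel₀ hJ', one_pow]
    rw [Finset.sum_congr rfl this]
    simp
  · rintro ⟨k, v⟩ hv ⟨l, w⟩ hw hne
    rw [hV, Finset.mem_sigma, Finset.mem_range, Finset.mem_piAntidiag] at hv hw
    simp only at hv hw
    apply hsep
    · intro h
      apply hne
      have h' : v = w := h
      have : k = l := by rw [← hv.2.1, ← hw.2.1, h']
      rw [this, h']
    · rw [hv.2.1]; exact hv.1
    · rw [hw.2.1]; exact hw.1
  · intro t
    rw [hV, Finset.sum_sigma]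
    simp only [W_apply, fourier_sub_arg, hc]
    simp only [FF, rr_pow]
    have e1 : ∀ n : ℤ, (∑ k ∈ Finset.range K, ω⁻¹ ^ k * ((J:ℂ)⁻¹ ^ k * ∑ v ∈ Finset.piAntidiag (Finset.univ : Finset (Fin J)) k,
        (Nat.multinomial Finset.univ v : ℂ) * fourier (-n) (tau x v))) * Gc M n * fourier n t =
        ∑ k ∈ Finset.range K, ∑ v ∈ Finset.piAntidiag (Finset.univ : Finset (Fin J)) k,
          (ω⁻¹ ^ k * ((J:ℂ)⁻¹ ^ k * (Nat.multinomial Finset.univ v : ℂ))) *
            (Gc M n * (fourier n t * fourier (-n) (tau x v))) := by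
      intro n
      rw [Finset.sum_mul, Finset.sum_mul]
      refine Finset.sum_congr rfl fun k _ => ?_
      rw [Finset.mul_sum, Finset.mul_sum, Finset.sum_mul, Finset.sum_mul]
      refine Finset.sum_congr rfl fun v _ => ?_
      ring
    rw [Finset.sum_congr rfl (fun n _ => e1 n), Finset.sum_comm]
    refine Finset.sum_congr rfl fun k _ => ?_
    rw [Finset.sum_comm]
    refine Finset.sum_congr rfl fun v _ => ?_
    rw [Finset.mul_sum]

lemma nrm_W_Gc {M : ℕ} (hM : 0 < M) :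
    nrm (W (Finset.Icc 1 (2 * M : ℤ)) (Gc M) : C(AddCircle T, ℂ)) = 1 := by
  rw [nrm_eq]
  simp only [norm_W_Gc]
  simpa using integral_Fj (T := T) hM 0

/-- the density -/
noncomputable def NN {J : ℕ} (x : Fin J → AddCircle T) (θ : ℝ) (D : ℕ) (n : ℤ) : ℂ :=
  (1 - θ) * (if n = 0 then 1 else 0) + θ * (rr x n * Fc D n)

lemma nrm_W_le (S : Finset ℤ) (b : ℤ → ℂ) :
    nrm (W S b : C(AddCircle T, ℂ)) ≤ ∑ n ∈ S, ‖b n‖ := by
  unfold W
  refine (nrm_sum_le _ _).trans (Finset.sum_le_sum fun n _ => ?_)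
  rw [nrm_smul, nrm_fourier, mul_one]

lemma FF_upper {J : ℕ} (hJ : 0 < J) (x : Fin J → AddCircle T) {ω : ℂ} (hω : ‖ω‖ = 1) {θ : ℝ}
    (h0 : 0 ≤ θ) (h1 : θ ≤ 1) (K : ℕ) {M D : ℕ}
    (hM : 0 < M) (hD : 0 < D) (hMD : 4 * M ^ 2 * K ≤ D) :
    nrm (W (Finset.Icc 1 (2 * M : ℤ)) (fun n => (NN x θ D n - θ * ω) * FF x ω K M n) : C(AddCircle T, ℂ)) ≤ 3 := by
  have hω0 : ω ≠ 0 := by intro h; rw [h] at hω; simp at hω
  have hD' : (0:ℝ) < D := by positivity
  set S := Finset.Icc 1 (2 * M : ℤ) with hS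
  have e0 : (W S (fun n => (NN x θ D n - θ * ω) * FF x ω K M n) : C(AddCircle T, ℂ)) =
      (θ:ℂ) • W S (fun n => (rr x n - ω) * FF x ω K M n)
        - (θ:ℂ) • W S (fun n => (rr x n * (1 - Fc D n)) * FF x ω K M n) := by
    ext t
    simp only [W_apply, ContinuousMap.sub_apply, ContinuousMap.smul_apply, smul_eq_mul,
      Finset.mul_sum, ← Finset.sum_sub_distrib]
    refine Finset.sum_congr rfl fun n hn => ?_
    have hn0 : n ≠ 0 := by
      rw [hS, Finset.mem_Icc] at hn; omega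
    simp only [NN, if_neg hn0]
    ring
  have e1 : (W S (fun n => (rr x n - ω) * FF x ω K M n) : C(AddCircle T, ℂ)) =
      (ω * (ω⁻¹) ^ K) • W S (fun n => rr x n ^ K * Gc M n) - ω • W S (Gc M) := by
    ext t
    simp only [W_apply, ContinuousMap.sub_apply, ContinuousMap.smul_apply, smul_eq_mul,
      Finset.mul_sum, ← Finset.sum_sub_distrib]
    refine Finset.sum_congr rfl fun n hn => ?_
    unfold FF
    have hg : (∑ k ∈ Finset.range K, (ω⁻¹) ^ k * rr x n ^ k) * (ω⁻¹ * rr x n - 1) = (ω⁻¹ * rr x n) ^ K - 1 := by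
      simp only [← mul_pow]
      exact geom_sum_mul _ _
    have hg2 : (rr x n - ω) = ω * (ω⁻¹ * rr x n - 1) := by
      field_simp
    rw [hg2]
    have : ω * (ω⁻¹ * rr x n - 1) * ((∑ k ∈ Finset.range K, (ω⁻¹) ^ k * rr x n ^ k) * Gc M n) * fourier n t =
       ω * (((∑ k ∈ Finset.range K, (ω⁻¹) ^ k * rr x n ^ k) * (ω⁻¹ * rr x n - 1))) * Gc M n * fourier n t := by ring
    rw [this, hg, mul_pow]
    ring
  have n1 : nrm (W S (fun n => (rr x n - ω) * FF x ω K M n) : C(AddCircle T, ℂ)) ≤ 2 := by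
    rw [e1]
    refine (nrm_sub_le _ _).trans ?_
    rw [nrm_smul, nrm_smul, norm_mul, norm_pow, norm_inv, hω, nrm_W_Gc hM]
    have := nrm_pow_le hJ x S (Gc M) K
    rw [nrm_W_Gc hM] at this
    norm_num
    linarith
  have n2 : nrm (W S (fun n => (rr x n * (1 - Fc D n)) * FF x ω K M n) : C(AddCircle T, ℂ)) ≤ 1 := by
    refine (nrm_W_le _ _).trans ?_
    have hb : ∀ n ∈ S, ‖(rr x n * (1 - Fc D n)) * FF x ω K M n‖ ≤ (2 * M : ℝ) / D * K := by
      intro n hn
      rw [hS, Finset.mem_Icc] at hn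
      obtain ⟨m, rfl⟩ : ∃ m : ℕ, n = m := ⟨n.toNat, by omega⟩
      rw [norm_mul, norm_mul]
      have hF : ‖FF x ω K M m‖ ≤ K := by
        unfold FF
        rw [norm_mul]
        have hs : ‖∑ k ∈ Finset.range K, (ω⁻¹) ^ k * rr x m ^ k‖ ≤ K := by
          refine (norm_sum_le _ _).trans ?_
          have : ∀ k ∈ Finset.range K, ‖(ω⁻¹) ^ k * rr x m ^ k‖ ≤ 1 := by
            intro k _
            rw [norm_mul, norm_pow, norm_pow, norm_inv, hω, inv_one, one_pow, one_mul]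
            exact pow_le_one₀ (norm_nonneg _) (norm_rr_le hJ x m)
          refine (Finset.sum_le_sum this).trans ?_
          simp
        calc _ ≤ (K:ℝ) * 1 := by
              gcongr
              exact norm_Gc_le hM _
          _ = K := mul_one _
      have hr := norm_rr_le hJ x m
      have hf := norm_one_sub_Fc hD m
      have hm : (m:ℝ) ≤ 2 * M := by
        have : m ≤ 2 * M := by omega
        exact_mod_cast this
      calc ‖rr x m‖ * ‖1 - Fc D m‖ * ‖FF x ω K M m‖ ≤ 1 * (m / D) * K := by gcongr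
        _ ≤ 1 * ((2 * M) / D) * K := by gcongr
        _ = (2 * M : ℝ) / D * K := by ring
    refine (Finset.sum_le_sum hb).trans ?_
    rw [Finset.sum_const, nsmul_eq_mul]
    have hc : (S.card : ℝ) = 2 * M := by
      rw [hS, Int.card_Icc]
      have : (2 * (M:ℤ) + 1 - 1).toNat = 2 * M := by omega
      rw [this]; push_cast; ring
    rw [hc]
    have : (4 * M ^ 2 * K : ℝ) ≤ D := by exact_mod_cast hMD
    have e : (2 * (M:ℝ)) * ((2 * M : ℝ) / D * K) = (4 * M ^ 2 * K) / D := by ring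
    rw [e, div_le_one hD']
    exact this
  rw [e0]
  refine (nrm_sub_le _ _).trans ?_
  rw [nrm_smul, nrm_smul, Complex.norm_real, Real.norm_eq_abs, abs_of_nonneg h0]
  have a1 := nrm_nonneg (W S (fun n => (rr x n - ω) * FF x ω K M n) : C(AddCircle T, ℂ))
  have a2 := nrm_nonneg (W S (fun n => (rr x n * (1 - Fc D n)) * FF x ω K M n) : C(AddCircle T, ℂ))
  nlinarith

/-- positive definite trigonometric polynomial sequences of degree at most `d` -/
def Dens (T : ℝ) (d : ℕ) (a : ℤ → ℂ) : Prop :=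
  (∀ n : ℤ, (d:ℤ) < |n| → a n = 0) ∧ a 0 = 1 ∧
    ∀ t : AddCircle T, ∃ y : ℝ, 0 ≤ y ∧ W (Finset.Icc (-(d:ℤ)) d) a t = (y : ℂ)

lemma cF_eq_zero (M : ℕ) (n : ℤ) (h : (M:ℤ) ≤ |n|) : cF M n = 0 := by
  unfold cF
  rw [Finset.card_eq_zero, Finset.filter_eq_empty_iff]
  rintro ⟨a, b⟩ hp h2
  simp only [Finset.mem_product, Finset.mem_range] at hp
  simp only at h2
  rw [← h2] at h
  rcases abs_cases ((a:ℤ) - b) with h3 | h3 <;> omega

omit hT in
lemma NN_dens {J : ℕ} (hJ : 0 < J) (x : Fin J → AddCircle T) {θ : ℝ} (h0 : 0 ≤ θ) (h1 : θ ≤ 1)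
    {D : ℕ} (hD : 0 < D) : Dens T D (NN x θ D) := by
  refine ⟨?_, ?_, ?_⟩
  · intro n hn
    have hn0 : n ≠ 0 := by rintro rfl; simp at hn; omega
    unfold NN Fc
    rw [cF_eq_zero D n hn.le]
    simp [hn0]
  · unfold NN
    rw [rr_zero hJ, Fc_zero hD]
    simp
  · intro t
    refine ⟨(1 - θ) + θ * ((J:ℝ)⁻¹ * ∑ j, Fj D (t - x j)), ?_, ?_⟩
    · have : 0 ≤ ∑ j, Fj D (t - x j) := Finset.sum_nonneg fun j _ => Fj_nonneg _ _
      have h2 : (0:ℝ) ≤ (J:ℝ)⁻¹ := by positivity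
      have := mul_nonneg h0 (mul_nonneg h2 this)
      linarith
    · have e1 : W (Finset.Icc (-(D:ℤ)) D) (NN x θ D) t =
          (1 - θ) * (∑ n ∈ Finset.Icc (-(D:ℤ)) D, (if n = 0 then 1 else 0) * fourier n t) +
          θ * ((J:ℂ)⁻¹ * ∑ j, W (Finset.Icc (-(D:ℤ)) D) (Fc D) (t - x j)) := by
        simp only [W_apply, NN, fourier_sub_arg, rr]
        rw [Finset.sum_comm (s := (Finset.univ : Finset (Fin J))), Finset.mul_sum, Finset.mul_sum,
          Finset.mul_sum, ← Finset.sum_add_distrib]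
        refine Finset.sum_congr rfl fun n _ => ?_
        have : ∑ j, Fc D n * (fourier n t * fourier (-n) (x j)) = (∑ j, fourier (-n) (x j)) * (Fc D n * fourier n t) := by
          rw [Finset.sum_mul]
          refine Finset.sum_congr rfl fun j _ => ?_
          ring
        rw [this]
        ring
      rw [e1, Finset.sum_eq_single_of_mem (0:ℤ) (by simp)]
      · simp only [W_Fc]
        simp
      · intro n _ hn
        simp [hn]

end Pool.Agent.R194.Raj
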