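import Pool.Agent.R194.Raj.Basic

open MeasureTheory AddCircle Filter Topology ComplexConjugate
open scoped Real BigOperators

namespace Pool.Agent.R194.Raj

variable {T : ℝ} [hT : Fact (0 < T)]

/-- geometric sum -/
noncomputable def AA (M : ℕ) (t : AddCircle T) : ℂ := ∑ k ∈ Finset.range M, fourier (k:ℤ) t

/-- Fejér kernel -/
noncomputable def Fj (M : ℕ) (t : AddCircle T) : ℝ := ‖AA M t‖ ^ 2 / M

omit hT in
lemma AA_cont (M : ℕ) : Continuous (AA M : AddCircle T → ℂ) := by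
  unfold AA; fun_prop

omit hT in
lemma Fj_cont (M : ℕ) : Continuous (Fj M : AddCircle T → ℝ) := by
  unfold Fj
  have := AA_cont (T := T) M
  fun_prop

omit hT in
lemma Fj_nonneg (M : ℕ) (t : AddCircle T) : 0 ≤ Fj M t := by
  unfold Fj; positivity

omit hT in
lemma Fj_eq_sum (M : ℕ) (t : AddCircle T) :
    ((Fj M t : ℝ) : ℂ) = (M : ℂ)⁻¹ * ∑ k ∈ Finset.range M, ∑ l ∈ Finset.range M,
      fourier ((k:ℤ) - (l:ℤ)) t := by
  have h1 : ((‖AA M t‖ ^ 2 : ℝ) : ℂ) = AA M t * conj (AA M t) := by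
    rw [Complex.mul_conj, Complex.normSq_eq_norm_sq]
  unfold Fj
  rw [Complex.ofReal_div, h1, Complex.ofReal_natCast, div_eq_inv_mul]
  congr 1
  unfold AA
  rw [map_sum, Finset.sum_mul_sum]
  refine Finset.sum_congr rfl fun k _ => Finset.sum_congr rfl fun l _ => ?_
  rw [← fourier_neg, ← fourier_add, sub_eq_add_neg]

omit hT in
lemma integral_Fj_comp {X : Type*} [MeasurableSpace X] (ν : Measure X) [IsProbabilityMeasure ν]
    (g : X → AddCircle T) (hi : ∀ m : ℤ, Integrable (fun x => fourier m (g x)) ν)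
    (h0 : ∀ m : ℤ, m ≠ 0 → ∫ x, fourier m (g x) ∂ν = 0) {M : ℕ} (hM : 0 < M) :
    ∫ x, Fj M (g x) ∂ν = 1 := by
  have hM' : (M : ℂ) ≠ 0 := by exact_mod_cast hM.ne'
  have : ((∫ x, Fj M (g x) ∂ν : ℝ) : ℂ) = 1 := by
    rw [← integral_complex_ofReal]
    simp only [Fj_eq_sum]
    rw [integral_const_mul, integral_finsetSum _ (fun k _ => integrable_finsetSum _ (fun l _ => hi _))]
    have : ∀ k ∈ Finset.range M, ∫ x, ∑ l ∈ Finset.range M, fourier ((k:ℤ) - (l:ℤ)) (g x) ∂ν = 1 := by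
      intro k hk
      rw [integral_finsetSum _ (fun l _ => hi _)]
      rw [Finset.sum_eq_single_of_mem k hk]
      · simp
      · intro l _ hl
        apply h0
        intro h
        apply hl
        omega
    rw [Finset.sum_congr rfl this]
    simp [hM']
  exact_mod_cast this

lemma integral_Fj {M : ℕ} (hM : 0 < M) (p : AddCircle T) :
    ∫ t, Fj M (t - p) ∂(haarAddCircle (T := T)) = 1 := by
  rw [integral_sub_right_eq_self (fun t => Fj M t) p]
  refine integral_Fj_comp haarAddCircle (fun t => t) (fun m => integrable_of_cont (by fun_prop)) ?_ hM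
  intro m hm
  rw [integral_fourier, if_neg hm]

omit hT in
lemma AA_mul (M : ℕ) (t : AddCircle T) :
    AA M t * (fourier 1 t - 1) = (fourier 1 t) ^ M - 1 := by
  unfold AA
  simp only [fourier_natpow]
  exact geom_sum_mul _ _

omit hT in
lemma Fj_off {M : ℕ} (hM : 0 < M) (t : AddCircle T) :
    M * Fj M t * ‖fourier 1 t - 1‖ ^ 2 ≤ 4 := by
  have h1 : ‖AA M t‖ * ‖fourier 1 t - 1‖ ≤ 2 := by
    rw [← norm_mul, AA_mul]
    refine (norm_sub_le _ _).trans ?_
    rw [norm_pow, norm_fourier_apply]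
    norm_num
  have hM' : (M:ℝ) ≠ 0 := by positivity
  have h2 : M * Fj M t * ‖fourier 1 t - 1‖ ^ 2 = (‖AA M t‖ * ‖fourier 1 t - 1‖) ^ 2 := by
    unfold Fj; field_simp
  rw [h2]
  nlinarith [norm_nonneg (AA M t), norm_nonneg (fourier 1 t - 1),
    mul_nonneg (norm_nonneg (AA M t)) (norm_nonneg (fourier 1 t - 1))]

lemma norm_pow_sub_one_le (z : ℂ) (hz : ‖z‖ = 1) (k : ℕ) : ‖z ^ k - 1‖ ≤ k * ‖z - 1‖ := by
  induction k with
  | zero => simp
  | succ k ih =>
    have : z ^ (k+1) - 1 = z * (z ^ k - 1) + (z - 1) := by ring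
    rw [this]
    refine (norm_add_le _ _).trans ?_
    rw [norm_mul, hz, one_mul]
    push_cast
    linarith

omit hT in
lemma Fj_near {M : ℕ} (hM : 0 < M) (t : AddCircle T) (h : ‖fourier 1 t - 1‖ < 1 / M) :
    (M:ℝ) / 4 ≤ Fj M t := by
  have hM' : (0:ℝ) < M := by positivity
  have h1 : ‖AA M t - M‖ ≤ M / 2 := by
    have : AA M t - M = ∑ k ∈ Finset.range M, ((fourier 1 t) ^ k - 1) := by
      unfold AA
      simp only [fourier_natpow]
      rw [Finset.sum_sub_distrib]; simp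
    rw [this]
    refine (norm_sum_le _ _).trans ?_
    have h2 : ∀ k ∈ Finset.range M, ‖(fourier 1 t) ^ k - 1‖ ≤ (k:ℝ) * (1 / M) := by
      intro k _
      refine (norm_pow_sub_one_le _ (norm_fourier_apply 1 t) k).trans ?_
      gcongr
    refine (Finset.sum_le_sum h2).trans ?_
    rw [← Finset.sum_mul]
    have h3 : (∑ k ∈ Finset.range M, (k:ℝ)) ≤ M * M / 2 := by
      have := Finset.sum_range_id_mul_two M
      have h4 : (∑ k ∈ Finset.range M, (k:ℝ)) * 2 = M * ((M - 1 : ℕ) : ℝ) := by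
        have h := congrArg (Nat.cast : ℕ → ℝ) this
        simpa only [Nat.cast_mul, Nat.cast_sum, Nat.cast_ofNat] using h
      have h5 : ((M - 1 : ℕ) : ℝ) ≤ M := by exact_mod_cast Nat.sub_le _ _
      nlinarith
    calc (∑ k ∈ Finset.range M, (k:ℝ)) * (1 / M) ≤ (M * M / 2) * (1 / M) := by gcongr
      _ = M / 2 := by field_simp
  have h2 : (M:ℝ) / 2 ≤ ‖AA M t‖ := by
    have : (M:ℝ) = ‖(M:ℂ)‖ := by simp
    have h3 : ‖(M:ℂ)‖ ≤ ‖AA M t‖ + ‖AA M t - M‖ := by
      have : (M:ℂ) = AA M t - (AA M t - M) := by ring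
      calc ‖(M:ℂ)‖ = ‖AA M t - (AA M t - M)‖ := by rw [← this]
        _ ≤ _ := norm_sub_le _ _
    rw [← this] at h3
    linarith
  unfold Fj
  rw [le_div_iff₀ hM']
  nlinarith

/-- counts -/
def cG (M : ℕ) (n : ℤ) : ℕ :=
  ((Finset.range M ×ˢ Finset.range M).filter (fun p => 1 + ((p.1:ℤ) + (p.2:ℤ)) = n)).card

/-- counts -/
def cF (M : ℕ) (n : ℤ) : ℕ :=
  ((Finset.range M ×ˢ Finset.range M).filter (fun p => (p.1:ℤ) - (p.2:ℤ) = n)).card

lemma cG_le (M : ℕ) (n : ℤ) : cG M n ≤ M := by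
  unfold cG
  calc _ ≤ (Finset.range M).card := by
        refine Finset.card_le_card_of_injOn (fun p => p.1) ?_ ?_
        · intro p hp
          simp at hp ⊢
          exact hp.1.1
        · intro p hp q hq h
          simp at hp hq h
          ext
          · exact h
          · have := hp.2; have := hq.2; omega
    _ = M := Finset.card_range M

lemma cF_le (M : ℕ) (n : ℤ) : cF M n ≤ M := by
  unfold cF
  calc _ ≤ (Finset.range M).card := by
        refine Finset.card_le_card_of_injOn (fun p => p.1) ?_ ?_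
        · intro p hp
          simp at hp ⊢
          exact hp.1.1
        · intro p hp q hq h
          simp at hp hq h
          ext
          · exact h
          · have := hp.2; have := hq.2; omega
    _ = M := Finset.card_range M

lemma cF_ge (M : ℕ) (n : ℕ) : M - n ≤ cF M n := by
  unfold cF
  calc M - n = (Finset.range (M - n)).card := (Finset.card_range _).symm
    _ ≤ _ := by
        refine Finset.card_le_card_of_injOn (fun l => (l + n, l)) ?_ ?_
        · intro l hl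
          simp at hl ⊢
          omega
        · intro p hp q hq h
          simp at h
          exact h

lemma cF_zero (M : ℕ) : cF M 0 = M :=
  le_antisymm (cF_le M 0) (by simpa using cF_ge M 0)

/-- coefficients of the shifted Fejér kernel -/
noncomputable def Gc (M : ℕ) (n : ℤ) : ℂ := (M:ℂ)⁻¹ * cG M n

/-- coefficients of the Fejér kernel -/
noncomputable def Fc (M : ℕ) (n : ℤ) : ℂ := (M:ℂ)⁻¹ * cF M n

lemma norm_Gc_le {M : ℕ} (hM : 0 < M) (n : ℤ) : ‖Gc M n‖ ≤ 1 := by
  unfold Gc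
  rw [norm_mul, norm_inv, Complex.norm_natCast, Complex.norm_natCast, inv_mul_le_iff₀ (by positivity), mul_one]
  exact_mod_cast cG_le M n

lemma norm_Fc_le {M : ℕ} (hM : 0 < M) (n : ℤ) : ‖Fc M n‖ ≤ 1 := by
  unfold Fc
  rw [norm_mul, norm_inv, Complex.norm_natCast, Complex.norm_natCast, inv_mul_le_iff₀ (by positivity), mul_one]
  exact_mod_cast cF_le M n

lemma Fc_zero {M : ℕ} (hM : 0 < M) : Fc M 0 = 1 := by
  have hM' : (M : ℂ) ≠ 0 := by exact_mod_cast hM.ne'
  unfold Fc; rw [cF_zero, inv_mul_cancel₀ hM']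

lemma norm_one_sub_Fc {M : ℕ} (hM : 0 < M) (n : ℕ) : ‖1 - Fc M n‖ ≤ n / M := by
  have hM' : (0:ℝ) < M := by positivity
  have e : (1 - Fc M n : ℂ) = ((1 - (cF M n : ℝ) / M : ℝ) : ℂ) := by
    unfold Fc; push_cast; ring
  rw [e, Complex.norm_real, Real.norm_eq_abs, abs_le]
  have h1 : (cF M n : ℝ) ≤ M := by exact_mod_cast cF_le M n
  have h2 : (M : ℝ) - n ≤ cF M n := by
    have := cF_ge M n
    have h3 : M ≤ cF M n + n := by omega
    have h4 : (M:ℝ) ≤ cF M n + n := by exact_mod_cast h3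
    linarith
  constructor
  · have : (cF M n : ℝ) / M ≤ 1 := by rw [div_le_one hM']; exact h1
    have : (0:ℝ) ≤ n / M := by positivity
    linarith
  · have : ((M:ℝ) - n) / M ≤ cF M n / M := by gcongr
    rw [sub_div, div_self hM'.ne'] at this
    linarith

omit hT in
lemma W_Gc (M : ℕ) (t : AddCircle T) :
    W (Finset.Icc 1 (2 * M : ℤ)) (Gc M) t = (M:ℂ)⁻¹ * (fourier 1 t * AA M t ^ 2) := by
  have h := Finset.sum_fiberwise_of_maps_to (s := Finset.range M ×ˢ Finset.range M)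
    (t := Finset.Icc 1 (2 * M : ℤ)) (g := fun p => 1 + ((p.1:ℤ) + (p.2:ℤ)))
    (by intro p hp; simp at hp ⊢; omega) (fun p => fourier (1 + ((p.1:ℤ) + (p.2:ℤ))) t)
  have h2 : ∑ p ∈ Finset.range M ×ˢ Finset.range M, fourier (1 + ((p.1:ℤ) + (p.2:ℤ))) t =
      fourier 1 t * AA M t ^ 2 := by
    rw [Finset.sum_product, sq]
    unfold AA
    rw [Finset.sum_mul_sum, Finset.mul_sum]
    refine Finset.sum_congr rfl fun k _ => ?_
    rw [Finset.mul_sum]
    refine Finset.sum_congr rfl fun l _ => ?_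
    rw [fourier_add, fourier_add]
  rw [← h2, ← h, W_apply, Finset.mul_sum]
  refine Finset.sum_congr rfl fun n _ => ?_
  unfold Gc cG
  rw [mul_assoc]
  congr 1
  rw [Finset.sum_congr rfl (g := fun _ => fourier n t)]
  · rw [Finset.sum_const, nsmul_eq_mul]
  · intro p hp
    simp only [Finset.mem_filter] at hp
    rw [hp.2]

omit hT in
lemma norm_W_Gc (M : ℕ) (t : AddCircle T) :
    ‖W (Finset.Icc 1 (2 * M : ℤ)) (Gc M) t‖ = Fj M t := by
  rw [W_Gc, norm_mul, norm_mul, norm_fourier_apply, norm_pow, norm_inv, Complex.norm_natCast]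
  unfold Fj; ring

omit hT in
lemma W_Fc (M : ℕ) (t : AddCircle T) :
    W (Finset.Icc (-(M:ℤ)) M) (Fc M) t = (Fj M t : ℝ) := by
  have h := Finset.sum_fiberwise_of_maps_to (s := Finset.range M ×ˢ Finset.range M)
    (t := Finset.Icc (-(M:ℤ)) M) (g := fun p => (p.1:ℤ) - (p.2:ℤ))
    (by intro p hp; simp at hp ⊢; omega) (fun p => fourier ((p.1:ℤ) - (p.2:ℤ)) t)
  rw [Fj_eq_sum, ← Finset.sum_product', ← h, W_apply, Finset.mul_sum]
  refine Finset.sum_congr rfl fun n _ => ?_
  unfold Fc cF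
  rw [mul_assoc]
  congr 1
  rw [Finset.sum_congr rfl (g := fun _ => fourier n t)]
  · rw [Finset.sum_const, nsmul_eq_mul]
  · intro p hp
    simp only [Finset.mem_filter] at hp
    rw [hp.2]

/-- the separated lower bound -/
lemma lower_bound {ι : Type*} [DecidableEq ι] (V : Finset ι) (c : ι → ℂ) (p : ι → AddCircle T) {Δ : ℝ}
    (hΔ : 0 < Δ)
    (hsep : ∀ v ∈ V, ∀ w ∈ V, v ≠ w → Δ ≤ ‖fourier 1 (p v) - fourier 1 (p w)‖) {M : ℕ} (hM : 0 < M)
    (hMΔ : 64 ≤ M * Δ ^ 2) (f : C(AddCircle T, ℂ))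
    (hf : ∀ t, f t = ∑ v ∈ V, c v * W (Finset.Icc 1 (2 * M : ℤ)) (Gc M) (t - p v)) :
    (∑ v ∈ V, ‖c v‖) / 2 ≤ nrm f := by
  have hM' : (0:ℝ) < M := by positivity
  have far : ∀ v, ∀ t : AddCircle T, Δ / 2 ≤ ‖fourier 1 t - fourier 1 (p v)‖ → Fj M (t - p v) ≤ 1 / 4 := by
    intro v t h
    have h1 := Fj_off hM (t - p v)
    have h2 : ‖fourier 1 (t - p v) - 1‖ = ‖fourier 1 t - fourier 1 (p v)‖ := by
      have : fourier 1 t - fourier 1 (p v) = fourier 1 (p v) * (fourier 1 (t - p v) - 1) := by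
        rw [mul_sub, mul_one, ← fourier_add_arg]; simp
      rw [this, norm_mul, norm_fourier_apply, one_mul]
    rw [h2] at h1
    have h3 : (Δ/2)^2 ≤ ‖fourier 1 t - fourier 1 (p v)‖^2 := by gcongr
    have h4 : M * Fj M (t - p v) * (Δ/2)^2 ≤ 4 := by
      refine le_trans ?_ h1
      have := Fj_nonneg M (t - p v)
      gcongr
    have h5 := Fj_nonneg M (t - p v)
    nlinarith
  have key : ∀ t : AddCircle T, ∑ v ∈ V, ‖c v‖ * (Fj M (t - p v) - 1 / 2) ≤ ‖f t‖ := by
    intro t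
    by_cases hnear : ∃ v0 ∈ V, ‖fourier 1 t - fourier 1 (p v0)‖ < Δ / 2
    · obtain ⟨v0, hv0, hn⟩ := hnear
      have hfar : ∀ v ∈ V.erase v0, Fj M (t - p v) ≤ 1 / 4 := by
        intro v hv
        rw [Finset.mem_erase] at hv
        apply far
        have h1 := hsep v hv.2 v0 hv0 hv.1
        have h2 : ‖fourier 1 (p v) - fourier 1 (p v0)‖ ≤ ‖fourier 1 t - fourier 1 (p v)‖ + ‖fourier 1 t - fourier 1 (p v0)‖ := by
          have : fourier 1 (p v) - fourier 1 (p v0) = (fourier 1 t - fourier 1 (p v0)) - (fourier 1 t - fourier 1 (p v)) := by ring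
          rw [this, add_comm]
          exact norm_sub_le _ _
        linarith
      rw [hf, ← Finset.add_sum_erase _ _ hv0, ← Finset.add_sum_erase _ _ hv0]
      have h1 : ‖c v0‖ * Fj M (t - p v0) ≤ ‖c v0 * W (Finset.Icc 1 (2 * M : ℤ)) (Gc M) (t - p v0) + ∑ v ∈ V.erase v0, c v * W (Finset.Icc 1 (2 * M : ℤ)) (Gc M) (t - p v)‖ + ∑ v ∈ V.erase v0, ‖c v‖ * Fj M (t - p v) := by
        have e1 : ‖c v0‖ * Fj M (t - p v0) = ‖c v0 * W (Finset.Icc 1 (2 * M : ℤ)) (Gc M) (t - p v0)‖ := by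
          rw [norm_mul, norm_W_Gc]
        have e2 : ‖∑ v ∈ V.erase v0, c v * W (Finset.Icc 1 (2 * M : ℤ)) (Gc M) (t - p v)‖ ≤ ∑ v ∈ V.erase v0, ‖c v‖ * Fj M (t - p v) := by
          refine (norm_sum_le _ _).trans (le_of_eq ?_)
          refine Finset.sum_congr rfl fun v _ => ?_
          rw [norm_mul, norm_W_Gc]
        rw [e1]
        set x := c v0 * W (Finset.Icc 1 (2 * M : ℤ)) (Gc M) (t - p v0)
        set y := ∑ v ∈ V.erase v0, c v * W (Finset.Icc 1 (2 * M : ℤ)) (Gc M) (t - p v)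
        have : ‖x‖ ≤ ‖x + y‖ + ‖y‖ := by
          have : x = (x + y) - y := by ring
          calc ‖x‖ = ‖(x + y) - y‖ := by rw [← this]
            _ ≤ _ := norm_sub_le _ _
        linarith
      have h2 : ∑ v ∈ V.erase v0, ‖c v‖ * (Fj M (t - p v) - 1/2) + ∑ v ∈ V.erase v0, ‖c v‖ * Fj M (t - p v) ≤ 0 := by
        rw [← Finset.sum_add_distrib]
        apply Finset.sum_nonpos
        intro v hv
        have := hfar v hv
        have h3 := norm_nonneg (c v)
        nlinarith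
      have h3 := norm_nonneg (c v0)
      linarith [mul_sub ‖c v0‖ (Fj M (t - p v0)) (1/2)]
    · push Not at hnear
      refine le_trans ?_ (norm_nonneg _)
      apply Finset.sum_nonpos
      intro v hv
      have := far v t (hnear v hv)
      have h3 := norm_nonneg (c v)
      nlinarith
  rw [nrm_eq]
  have hFi : ∀ v, Integrable (fun t => Fj M (t - p v)) (haarAddCircle (T := T)) := by
    intro v
    have := Fj_cont (T := T) M
    exact integrable_of_cont (by fun_prop)
  calc (∑ v ∈ V, ‖c v‖) / 2 = ∑ v ∈ V, ‖c v‖ * (1 - 1/2) := by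
        rw [← Finset.sum_mul]; ring
    _ = ∑ v ∈ V, ∫ t, ‖c v‖ * (Fj M (t - p v) - 1 / 2) ∂(haarAddCircle (T := T)) := by
        refine Finset.sum_congr rfl fun v _ => ?_
        rw [integral_const_mul, integral_sub (hFi v) (integrable_const _), integral_Fj hM]
        simp
    _ = ∫ t, ∑ v ∈ V, ‖c v‖ * (Fj M (t - p v) - 1 / 2) ∂(haarAddCircle (T := T)) := by
        rw [integral_finsetSum]
        intro v _
        exact ((hFi v).sub (integrable_const _)).const_mul _
    _ ≤ ∫ t, ‖f t‖ ∂(haarAddCircle (T := T)) := by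
        refine integral_mono ?_ (integrable_of_cont (by fun_prop)) key
        refine integrable_finsetSum _ (fun v _ => ?_)
        exact ((hFi v).sub (integrable_const _)).const_mul _

end Pool.Agent.R194.Raj
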