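import Pool.Agent.R194.Raj.Baire

open MeasureTheory AddCircle Filter Topology ComplexConjugate
open scoped Real BigOperators ZeroAtInfty

namespace Pool.Agent.R194.Raj

variable {T : ℝ} [hT : Fact (0 < T)]

/-- `L¹` of the circle -/
noncomputable abbrev L1 (T : ℝ) [Fact (0 < T)] := Lp ℂ 1 (haarAddCircle (T := T))

lemma L1_integrable (f : L1 T) : Integrable f (haarAddCircle (T := T)) := L1.integrable_coeFn f

lemma bdd_mul_integrable {φ : AddCircle T → ℂ} (hφ : Measurable φ) (hb : ∀ t, ‖φ t‖ ≤ 1) (f : L1 T) :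
    Integrable (fun t => φ t * f t) (haarAddCircle (T := T)) :=
  (L1_integrable f).bdd_mul (c := 1) hφ.aestronglyMeasurable (Eventually.of_forall hb)

/-- pairing with a bounded function -/
noncomputable def pair (φ : AddCircle T → ℂ) (hφ : Measurable φ) (hb : ∀ t, ‖φ t‖ ≤ 1) : L1 T →L[ℂ] ℂ :=
  LinearMap.mkContinuous
    { toFun := fun f => ∫ t, φ t * f t ∂haarAddCircle
      map_add' := by
        intro f g
        rw [← integral_add (bdd_mul_integrable hφ hb f) (bdd_mul_integrable hφ hb g)]
        refine integral_congr_ae ?_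
        filter_upwards [Lp.coeFn_add f g] with t ht
        rw [ht, Pi.add_apply, mul_add]
      map_smul' := by
        intro c f
        rw [RingHom.id_apply, smul_eq_mul, ← integral_const_mul]
        refine integral_congr_ae ?_
        filter_upwards [Lp.coeFn_smul c f] with t ht
        rw [ht, Pi.smul_apply, smul_eq_mul]
        ring } 1 (by
      intro f
      simp only [LinearMap.coe_mk, AddHom.coe_mk, one_mul]
      rw [L1.norm_eq_integral_norm]
      refine (norm_integral_le_integral_norm _).trans ?_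
      refine integral_mono (bdd_mul_integrable hφ hb f).norm (L1_integrable f).norm ?_
      intro t
      simp only [norm_mul]
      calc ‖φ t‖ * ‖f t‖ ≤ 1 * ‖f t‖ := by gcongr; exact hb t
        _ = ‖f t‖ := one_mul _)

lemma pair_apply (φ : AddCircle T → ℂ) (hφ : Measurable φ) (hb : ∀ t, ‖φ t‖ ≤ 1) (f : L1 T) :
    pair φ hφ hb f = ∫ t, φ t * f t ∂haarAddCircle := rfl

/-- translation -/
noncomputable def tr (y : AddCircle T) : L1 T →ₗᵢ[ℂ] L1 T :=
  Lp.compMeasurePreservingₗᵢ ℂ (fun x => x - y) (measurePreserving_sub_right haarAddCircle y)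

lemma tr_ae (y : AddCircle T) (f : L1 T) : tr y f =ᵐ[haarAddCircle] fun x => f (x - y) :=
  Lp.coeFn_compMeasurePreserving f (measurePreserving_sub_right haarAddCircle y)

lemma tr_cont (f : L1 T) : Continuous (fun y : AddCircle T => tr y f) := by
  have h := Continuous.compMeasurePreservingLp (Z := AddCircle T) (X := AddCircle T) (Y := AddCircle T)
    (μ := haarAddCircle) (ν := haarAddCircle) (E := ℂ) (p := 1)
    (g := fun y => (⟨fun x => x - y, by fun_prop⟩ : C(AddCircle T, AddCircle T)))
    (f := fun _ => f)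
    continuous_const
    (by
      have : Continuous (fun p : AddCircle T × AddCircle T => p.2 - p.1) := by fun_prop
      exact (ContinuousMap.curry ⟨fun p : AddCircle T × AddCircle T => p.2 - p.1, this⟩).continuous)
    (fun y => measurePreserving_sub_right haarAddCircle y) ENNReal.one_ne_top
  exact h

lemma tr_integrable (μ : Measure (AddCircle T)) [IsProbabilityMeasure μ] (f : L1 T) :
    Integrable (fun y => tr y f) μ :=
  (tr_cont f).integrable_of_hasCompactSupport (HasCompactSupport.of_compactSpace _)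

/-- convolution with `μ` as an operator on `L¹` -/
noncomputable def TT (μ : Measure (AddCircle T)) [IsProbabilityMeasure μ] : L1 T →L[ℂ] L1 T :=
  LinearMap.mkContinuous
    { toFun := fun f => ∫ y, tr y f ∂μ
      map_add' := by
        intro f g
        simp only [map_add]
        exact integral_add (tr_integrable μ f) (tr_integrable μ g)
      map_smul' := by
        intro c f
        simp only [map_smul, RingHom.id_apply]
        exact integral_smul c _ } 1 (by
      intro f
      simp only [LinearMap.coe_mk, AddHom.coe_mk, one_mul]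
      refine (norm_integral_le_integral_norm _).trans ?_
      simp)

lemma TT_apply (μ : Measure (AddCircle T)) [IsProbabilityMeasure μ] (f : L1 T) :
    TT μ f = ∫ y, tr y f ∂μ := rfl

lemma TT_norm_le (μ : Measure (AddCircle T)) [IsProbabilityMeasure μ] : ‖TT μ‖ ≤ 1 :=
  LinearMap.mkContinuous_norm_le _ zero_le_one _

lemma pair_TT (μ : Measure (AddCircle T)) [IsProbabilityMeasure μ] (φ : AddCircle T → ℂ)
    (hφ : Measurable φ) (hb : ∀ t, ‖φ t‖ ≤ 1) (f : L1 T) :
    pair φ hφ hb (TT μ f) = ∫ y, ∫ x, φ x * f (x - y) ∂haarAddCircle ∂μ := by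
  rw [TT_apply, ← (pair φ hφ hb).integral_comp_comm (tr_integrable μ f)]
  refine integral_congr_ae (Eventually.of_forall fun y => ?_)
  simp only [pair_apply]
  refine integral_congr_ae ?_
  filter_upwards [tr_ae y f] with x hx
  rw [hx]

/-- Fourier coefficient functional -/
noncomputable def cf (n : ℤ) : L1 T →L[ℂ] ℂ :=
  pair (fun t => fourier (-n) t) (by fun_prop) (fun t => (norm_fourier_apply (-n) t).le)

lemma cf_apply (n : ℤ) (f : L1 T) : cf n f = fourierCoeff f n := by
  unfold cf
  rw [pair_apply, fourierCoeff]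
  simp only [smul_eq_mul]

lemma cf_TT (μ : Measure (AddCircle T)) [IsProbabilityMeasure μ] (n : ℤ) (f : L1 T) :
    cf n (TT μ f) = (∫ y, fourier (-n) y ∂μ) * cf n f := by
  unfold cf
  rw [pair_TT]
  have : ∀ y : AddCircle T, ∫ x, fourier (-n) x * f (x - y) ∂(haarAddCircle (T := T)) =
      fourier (-n) y * ∫ x, fourier (-n) x * f x ∂(haarAddCircle (T := T)) := by
    intro y
    rw [← integral_const_mul, ← integral_sub_right_eq_self (fun x => fourier (-n) y * (fourier (-n) x * f x)) y]
    refine integral_congr_ae (Eventually.of_forall fun x => ?_)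
    simp only
    rw [← mul_assoc, ← fourier_add_arg]
    congr 2
    abel
  simp only [this, pair_apply]
  rw [integral_mul_const]

lemma cf_fourier (n k : ℤ) :
    cf n (ContinuousMap.toLp (E := ℂ) 1 haarAddCircle ℂ (fourier k : C(AddCircle T, ℂ))) = if k = n then 1 else 0 := by
  unfold cf
  rw [pair_apply]
  have h1 : ∫ t, fourier (-n) t * (ContinuousMap.toLp (E := ℂ) 1 haarAddCircle ℂ (fourier k : C(AddCircle T, ℂ))) t
      ∂(haarAddCircle (T := T)) = ∫ t, fourier (k - n) t ∂(haarAddCircle (T := T)) := by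
    refine integral_congr_ae ?_
    filter_upwards [ContinuousMap.coeFn_toLp (p := 1) (𝕜 := ℂ) haarAddCircle (fourier k : C(AddCircle T, ℂ))] with t ht
    rw [ht, ← fourier_add]
    congr 2
    ring
  rw [h1, integral_fourier]
  by_cases h : k = n
  · simp [h]
  · rw [if_neg (by omega), if_neg h]

lemma tr_fourier (y : AddCircle T) (n : ℤ) :
    tr y (ContinuousMap.toLp (E := ℂ) 1 haarAddCircle ℂ (fourier n : C(AddCircle T, ℂ))) =
      (fourier (-n) y : ℂ) • ContinuousMap.toLp (E := ℂ) 1 haarAddCircle ℂ (fourier n : C(AddCircle T, ℂ)) := by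
  apply Lp.ext
  have hmp := (measurePreserving_sub_right (haarAddCircle (T := T)) y)
  filter_upwards [tr_ae y (ContinuousMap.toLp (E := ℂ) 1 haarAddCircle ℂ (fourier n : C(AddCircle T, ℂ))),
    Lp.coeFn_smul (fourier (-n) y : ℂ) (ContinuousMap.toLp (E := ℂ) 1 haarAddCircle ℂ (fourier n : C(AddCircle T, ℂ))),
    ContinuousMap.coeFn_toLp (p := 1) (𝕜 := ℂ) haarAddCircle (fourier n : C(AddCircle T, ℂ)),
    hmp.quasiMeasurePreserving.ae_eq_comp (ContinuousMap.coeFn_toLp (p := 1) (𝕜 := ℂ) haarAddCircle (fourier n : C(AddCircle T, ℂ)))]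
    with x h1 h2 h3 h4
  rw [h1, h2, Pi.smul_apply, h3]
  simp only [Function.comp] at h4
  rw [h4, fourier_sub_arg, smul_eq_mul, mul_comm]

lemma TT_fourier (μ : Measure (AddCircle T)) [IsProbabilityMeasure μ] (n : ℤ) :
    TT μ (ContinuousMap.toLp (E := ℂ) 1 haarAddCircle ℂ (fourier n : C(AddCircle T, ℂ))) =
      (∫ y, fourier (-n) y ∂μ) • ContinuousMap.toLp (E := ℂ) 1 haarAddCircle ℂ (fourier n : C(AddCircle T, ℂ)) := by
  rw [TT_apply]
  simp only [tr_fourier]
  rw [integral_smul_const]

lemma TT_W (μ : Measure (AddCircle T)) [IsProbabilityMeasure μ] (S : Finset ℤ) (F : ℤ → ℂ) :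
    TT μ (ContinuousMap.toLp (E := ℂ) 1 haarAddCircle ℂ (W S F : C(AddCircle T, ℂ))) =
      ContinuousMap.toLp (E := ℂ) 1 haarAddCircle ℂ
        (W S (fun n => (∫ y, fourier (-n) y ∂μ) * F n) : C(AddCircle T, ℂ)) := by
  unfold W
  simp only [map_sum, map_smul, TT_fourier, smul_smul]
  refine Finset.sum_congr rfl fun n _ => ?_
  rw [mul_comm]

lemma TT_ae (μ : Measure (AddCircle T)) [IsProbabilityMeasure μ] (f : L1 T) :
    TT μ f =ᵐ[haarAddCircle] fun x => ∫ y, f (x - y) ∂μ := by
  have hsm : StronglyMeasurable (fun p : AddCircle T × AddCircle T => f (p.1 - p.2)) :=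
    (Lp.stronglyMeasurable f).comp_measurable measurable_sub
  have hint : Integrable (fun p : AddCircle T × AddCircle T => f (p.1 - p.2)) ((haarAddCircle (T := T)).prod μ) := by
    rw [integrable_prod_iff' hsm.aestronglyMeasurable]
    refine ⟨Eventually.of_forall fun y => (L1_integrable f).comp_sub_right y, ?_⟩
    have : ∀ y : AddCircle T, ∫ x, ‖f (x - y)‖ ∂(haarAddCircle (T := T)) = ∫ x, ‖f x‖ ∂(haarAddCircle (T := T)) :=
      fun y => integral_sub_right_eq_self (fun x => ‖f x‖) y
    simp only [this]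
    exact integrable_const _
  have hint2 : Integrable (fun x => ∫ y, f (x - y) ∂μ) (haarAddCircle (T := T)) := hint.integral_prod_left
  refine (L1_integrable (TT μ f)).ae_eq_of_forall_setIntegral_eq _ _ hint2 ?_
  intro A hA _
  have hφ : Measurable (A.indicator (fun _ => (1:ℂ))) := measurable_const.indicator hA
  have hb : ∀ t, ‖A.indicator (fun _ => (1:ℂ)) t‖ ≤ 1 := by
    intro t
    by_cases h : t ∈ A
    · simp [h]
    · simp [h]
  have h1 := pair_TT μ _ hφ hb f
  rw [pair_apply] at h1
  have hind : ∀ (g : AddCircle T → ℂ), ∫ x, A.indicator (fun _ => (1:ℂ)) x * g x ∂(haarAddCircle (T := T)) =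
      ∫ x in A, g x ∂(haarAddCircle (T := T)) := by
    intro g
    rw [← integral_indicator hA]
    refine integral_congr_ae (Eventually.of_forall fun x => ?_)
    by_cases h : x ∈ A
    · simp [h]
    · simp [h]
  rw [hind] at h1
  rw [h1]
  simp only [hind (fun x => f (x - _))]
  rw [integral_integral_swap]
  have : Integrable (fun p : AddCircle T × AddCircle T => f (p.1 - p.2)) (((haarAddCircle (T := T)).restrict A).prod μ) := by
    rw [Measure.restrict_prod_eq_prod_univ]
    exact hint.restrict
  exact this.swap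

end Pool.Agent.R194.Raj
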