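import Pool.Agent.R194.Raj.Kernel

open MeasureTheory AddCircle Filter Topology ComplexConjugate
open scoped Real BigOperators

namespace Pool.Agent.R194.Raj

variable {T : ℝ} [hT : Fact (0 < T)]

/-- the product measure -/
noncomputable def pim (T : ℝ) [Fact (0 < T)] (J : ℕ) : Measure (Fin J → AddCircle T) :=
  Measure.pi (fun _ => haarAddCircle)

instance (J : ℕ) : IsProbabilityMeasure (pim T J) := by unfold pim; infer_instance

lemma integrable_pim {E : Type*} [NormedAddCommGroup E] [SecondCountableTopology E] {J : ℕ}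
    {f : (Fin J → AddCircle T) → E} (hf : Continuous f) : Integrable f (pim T J) := by
  unfold pim
  exact hf.integrable_of_hasCompactSupport (HasCompactSupport.of_compactSpace f)

lemma exp_integral_le (n : ℤ) (hn : n ≠ 0) (u : ℂ) (hu : ‖u‖ = 1) (ϑ : ℝ) :
    ∫ t : AddCircle T, Real.exp (ϑ * (u * fourier n t).re) ∂haarAddCircle ≤ Real.exp (ϑ ^ 2 / 2) := by
  have h1 : ∀ t : AddCircle T, Real.exp (ϑ * (u * fourier n t).re) ≤
      Real.cosh ϑ + (u * fourier n t).re * Real.sinh ϑ := by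
    intro t
    rw [mul_comm ϑ]
    apply Real.exp_mul_le_cosh_add_mul_sinh
    refine (Complex.abs_re_le_norm _).trans ?_
    rw [norm_mul, hu, norm_fourier_apply, one_mul]
  have hre : Continuous (fun t : AddCircle T => (u * fourier n t).re) := by fun_prop
  have h2 : ∫ t : AddCircle T, (u * fourier n t).re ∂haarAddCircle = 0 := by
    have h3 : ∫ t : AddCircle T, (u * fourier n t) ∂haarAddCircle = 0 := by
      rw [integral_const_mul, integral_fourier, if_neg hn, mul_zero]
    have h4 := integral_re (μ := (haarAddCircle (T := T))) (f := fun t => u * fourier n t)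
      (integrable_of_cont (by fun_prop))
    simp only [RCLike.re_to_complex] at h4
    rw [h4, h3]; simp
  calc ∫ t : AddCircle T, Real.exp (ϑ * (u * fourier n t).re) ∂haarAddCircle
      ≤ ∫ t : AddCircle T, (Real.cosh ϑ + (u * fourier n t).re * Real.sinh ϑ) ∂haarAddCircle :=
        integral_mono (integrable_of_cont (by fun_prop)) (integrable_of_cont (by fun_prop)) h1
    _ = Real.cosh ϑ := by
        rw [integral_add (integrable_const _) (integrable_of_cont (by fun_prop)), integral_mul_const, h2]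
        simp
    _ ≤ _ := Real.cosh_le_exp_half_sq ϑ

lemma exp_integral_pi_le {J : ℕ} (n : ℤ) (hn : n ≠ 0) (u : ℂ) (hu : ‖u‖ = 1) (ϑ : ℝ) :
    ∫ x, Real.exp (ϑ * (u * ∑ j, fourier n (x j)).re) ∂(pim T J) ≤ Real.exp (ϑ ^ 2 / 2 * J) := by
  have h1 : ∀ x : Fin J → AddCircle T, Real.exp (ϑ * (u * ∑ j, fourier n (x j)).re) =
      ∏ j, Real.exp (ϑ * (u * fourier n (x j)).re) := by
    intro x
    rw [← Real.exp_sum, Finset.mul_sum, Complex.re_sum, Finset.mul_sum]
  simp only [h1]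
  unfold pim
  rw [integral_fintype_prod_eq_pow (fun t : AddCircle T => Real.exp (ϑ * (u * fourier n t).re))]
  rw [Fintype.card_fin, mul_comm (ϑ^2/2), Real.exp_nat_mul]
  apply pow_le_pow_left₀
  · apply integral_nonneg; intro t; positivity
  · exact exp_integral_le n hn u hu ϑ

/-- the point `∑ v_j x_j` -/
def tau {J : ℕ} (x : Fin J → AddCircle T) (v : Fin J → ℕ) : AddCircle T := ∑ j, v j • x j

omit hT in
lemma fourier_tau {J : ℕ} (x : Fin J → AddCircle T) (v : Fin J → ℕ) (n : ℤ) :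
    fourier n (tau x v) = ∏ j, (fourier n (x j)) ^ v j := by
  unfold tau
  rw [fourier_sum_arg]
  exact Finset.prod_congr rfl fun j _ => fourier_nsmul_arg _ _ _

omit hT in
lemma tau_cont {J : ℕ} (v : Fin J → ℕ) : Continuous (fun x : Fin J → AddCircle T => tau x v) := by
  unfold tau; fun_prop

omit hT in
lemma fourier_tau_sub {J : ℕ} (x : Fin J → AddCircle T) (v w : Fin J → ℕ) (n : ℤ) :
    fourier n (tau x v - tau x w) = ∏ j, fourier (n * ((v j : ℤ) - w j)) (x j) := by
  have : tau x v - tau x w = ∑ j, ((v j : ℤ) - w j) • x j := by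
    unfold tau
    rw [← Finset.sum_sub_distrib]
    refine Finset.sum_congr rfl fun j _ => ?_
    rw [sub_smul, natCast_zsmul, natCast_zsmul]
  rw [this, fourier_sum_arg]
  refine Finset.prod_congr rfl fun j _ => ?_
  rw [fourier_smul_arg, mul_comm]

lemma integral_Fj_tau {J : ℕ} {v w : Fin J → ℕ} (hvw : v ≠ w) {M : ℕ} (hM : 0 < M) :
    ∫ x, Fj M (tau x v - tau x w) ∂(pim T J) = 1 := by
  have hc : Continuous (fun x : Fin J → AddCircle T => tau x v - tau x w) :=
    (tau_cont v).sub (tau_cont w)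
  refine integral_Fj_comp (pim T J) (fun x => tau x v - tau x w) (fun m => integrable_pim (by fun_prop)) ?_ hM
  intro m hm
  simp only [fourier_tau_sub]
  unfold pim
  rw [integral_fintype_prod_eq_prod (fun j (t : AddCircle T) => fourier (m * ((v j : ℤ) - w j)) t)]
  obtain ⟨j, hj⟩ := Function.ne_iff.mp hvw
  apply Finset.prod_eq_zero (Finset.mem_univ j)
  rw [integral_fourier, if_neg]
  intro h
  rcases mul_eq_zero.mp h with h | h
  · exact hm h
  · apply hj; omega

omit hT in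
lemma norm_fourier_sub_eq (s t : AddCircle T) : ‖fourier 1 (s - t) - 1‖ = ‖fourier 1 s - fourier 1 t‖ := by
  have : fourier 1 s - fourier 1 t = fourier 1 t * (fourier 1 (s - t) - 1) := by
    rw [mul_sub, mul_one, ← fourier_add_arg]; simp
  rw [this, norm_mul, norm_fourier_apply, one_mul]

lemma exists_good (T : ℝ) [hT : Fact (0 < T)] {J D M0 : ℕ} (hM0 : 0 < M0) {ε : ℝ} (hε : 0 < ε)
    (V : Finset (Fin J → ℕ)) (h1 : 4 * (D:ℝ) * Real.exp (-(ε^2/8) * J) < 1 / 2)
    (h2 : 16 * (V.card : ℝ) ^ 2 ≤ M0) :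
    ∃ x : Fin J → AddCircle T, (∀ n : ℕ, 1 ≤ n → n < D → ‖rr x n‖ ≤ ε) ∧
      ∀ v ∈ V, ∀ w ∈ V, v ≠ w → 1 / (M0:ℝ) ≤ ‖fourier 1 (tau x v) - fourier 1 (tau x w)‖ := by
  classical
  have hM0' : (0:ℝ) < M0 := by positivity
  set U : Finset ℂ := {1, -1, Complex.I, -Complex.I} with hU
  have hUn : ∀ u ∈ U, ‖u‖ = 1 := by
    intro u hu
    simp only [hU, Finset.mem_insert, Finset.mem_singleton] at hu
    rcases hu with rfl | rfl | rfl | rfl <;> simp
  have hUc : U.card ≤ 4 := by
    rw [hU]; exact Finset.card_le_four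
  set ϑ := ε / 2 with hϑ
  set f1 : (ℕ × ℂ) → (Fin J → AddCircle T) → ℝ := fun q x =>
    Real.exp (ϑ * (q.2 * ∑ j, fourier (-(q.1:ℤ)) (x j)).re) * Real.exp (-(ϑ * ε * J / 2)) with hf1
  set f2 : ((Fin J → ℕ) × (Fin J → ℕ)) → (Fin J → AddCircle T) → ℝ := fun q x =>
    (4 / M0) * Fj M0 (tau x q.1 - tau x q.2) with hf2
  set Φ : (Fin J → AddCircle T) → ℝ := fun x =>
    ∑ q ∈ (Finset.Ico 1 D) ×ˢ U, f1 q x + ∑ q ∈ V.offDiag, f2 q x with hΦ
  have c1 : ∀ q, Continuous (f1 q) := by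
    intro q
    simp only [hf1]
    fun_prop
  have c2 : ∀ q, Continuous (f2 q) := by
    intro q
    simp only [hf2]
    have := Fj_cont (T := T) M0
    have h3 := tau_cont (T := T) q.1
    have h4 := tau_cont (T := T) q.2
    fun_prop
  have i1 : ∀ q ∈ (Finset.Ico 1 D) ×ˢ U, ∫ x, f1 q x ∂(pim T J) ≤ Real.exp (-(ε^2/8) * J) := by
    rintro ⟨n, u⟩ hq
    rw [Finset.mem_product, Finset.mem_Ico] at hq
    simp only [hf1]
    rw [integral_mul_const]
    have h3 := exp_integral_pi_le (T := T) (J := J) (-(n:ℤ)) (by simp only at hq; omega) u (hUn u hq.2) ϑ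
    calc _ ≤ Real.exp (ϑ ^ 2 / 2 * J) * Real.exp (-(ϑ * ε * J / 2)) := by gcongr
      _ = Real.exp (-(ε^2/8) * J) := by
        rw [← Real.exp_add]; congr 1; rw [hϑ]; ring
  have i2 : ∀ q ∈ V.offDiag, ∫ x, f2 q x ∂(pim T J) ≤ 4 / M0 := by
    rintro ⟨v, w⟩ hq
    rw [Finset.mem_offDiag] at hq
    simp only [hf2]
    rw [integral_const_mul, integral_Fj_tau hq.2.2 hM0, mul_one]
  have hint : ∫ x, Φ x ∂(pim T J) < 1 := by
    simp only [hΦ]
    rw [integral_add (integrable_finsetSum _ (fun q _ => integrable_pim (c1 q)))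
      (integrable_finsetSum _ (fun q _ => integrable_pim (c2 q))),
      integral_finsetSum _ (fun q _ => integrable_pim (c1 q)),
      integral_finsetSum _ (fun q _ => integrable_pim (c2 q))]
    have b1 := Finset.sum_le_sum i1
    have b2 := Finset.sum_le_sum i2
    rw [Finset.sum_const, nsmul_eq_mul] at b1 b2
    have b3 : (((Finset.Ico 1 D) ×ˢ U).card : ℝ) ≤ 4 * D := by
      rw [Finset.card_product, Nat.card_Ico]
      have : (D - 1) * U.card ≤ D * 4 := Nat.mul_le_mul (Nat.sub_le _ _) hUc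
      calc (((D - 1) * U.card : ℕ) : ℝ) ≤ ((D * 4 : ℕ) : ℝ) := by exact_mod_cast this
        _ = 4 * D := by push_cast; ring
    have b4 : (V.offDiag.card : ℝ) ≤ (V.card : ℝ) ^ 2 := by
      rw [Finset.offDiag_card]
      have : V.card * V.card - V.card ≤ V.card ^ 2 := by rw [sq]; exact Nat.sub_le _ _
      exact_mod_cast this
    have b5 : (((Finset.Ico 1 D) ×ˢ U).card : ℝ) * Real.exp (-(ε^2/8) * J) ≤ 4 * D * Real.exp (-(ε^2/8) * J) := by
      gcongr
    have b6 : (V.offDiag.card : ℝ) * (4 / M0) ≤ 1 / 4 := by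
      calc (V.offDiag.card : ℝ) * (4 / M0) ≤ (V.card : ℝ) ^ 2 * (4 / M0) := by gcongr
        _ = (16 * (V.card : ℝ) ^ 2) / M0 / 4 := by ring
        _ ≤ (M0:ℝ) / M0 / 4 := by gcongr
        _ = 1 / 4 := by rw [div_self hM0'.ne']
    linarith
  have hΦi : Integrable Φ (pim T J) := by
    simp only [hΦ]
    exact (integrable_finsetSum _ (fun q _ => integrable_pim (c1 q))).add
      (integrable_finsetSum _ (fun q _ => integrable_pim (c2 q)))
  obtain ⟨x, hx⟩ := exists_le_integral hΦi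
  have hx1 : Φ x < 1 := lt_of_le_of_lt hx hint
  have p1 : ∀ q, 0 ≤ f1 q x := fun q => by simp only [hf1]; positivity
  have p2 : ∀ q, 0 ≤ f2 q x := fun q => by
    simp only [hf2]; have := Fj_nonneg M0 (tau x q.1 - tau x q.2); positivity
  have s1 : 0 ≤ ∑ q ∈ (Finset.Ico 1 D) ×ˢ U, f1 q x := Finset.sum_nonneg fun q _ => p1 q
  have s2 : 0 ≤ ∑ q ∈ V.offDiag, f2 q x := Finset.sum_nonneg fun q _ => p2 q
  simp only [hΦ] at hx1
  refine ⟨x, ?_, ?_⟩
  · intro n hn1 hnD
    by_cases hJ : J = 0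
    · subst hJ
      simp [rr]; exact hε.le
    have hJ' : (0:ℝ) < J := by
      have : 0 < J := Nat.pos_of_ne_zero hJ
      exact_mod_cast this
    have hq : ∀ u ∈ U, (u * ∑ j, fourier (-(n:ℤ)) (x j)).re < ε * J / 2 := by
      intro u hu
      have h3 : f1 (n, u) x ≤ ∑ q ∈ (Finset.Ico 1 D) ×ˢ U, f1 q x :=
        Finset.single_le_sum (f := fun q => f1 q x) (fun q _ => p1 q)
          (by rw [Finset.mem_product, Finset.mem_Ico]; exact ⟨⟨hn1, hnD⟩, hu⟩)
      have h4 : f1 (n, u) x < 1 := by linarith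
      simp only [hf1] at h4
      rw [← Real.exp_add, Real.exp_lt_one_iff] at h4
      have h5 : ϑ * ((u * ∑ j, fourier (-(n:ℤ)) (x j)).re - ε * J / 2) < 0 := by
        have e : ϑ * ((u * ∑ j, fourier (-(n:ℤ)) (x j)).re - ε * J / 2) =
          ϑ * (u * ∑ j, fourier (-(n:ℤ)) (x j)).re + -(ϑ * ε * J / 2) := by ring
        rw [e]; exact h4
      have h6 : 0 < ϑ := by rw [hϑ]; positivity
      by_contra hcon
      push Not at hcon
      have : 0 ≤ ϑ * ((u * ∑ j, fourier (-(n:ℤ)) (x j)).re - ε * J / 2) :=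
        mul_nonneg h6.le (by linarith)
      linarith
    set s := ∑ j, fourier (-(n:ℤ)) (x j) with hs
    have q1 := hq 1 (by simp [hU])
    have q2 := hq (-1) (by simp [hU])
    have q3 := hq Complex.I (by simp [hU])
    have q4 := hq (-Complex.I) (by simp [hU])
    simp at q1 q2 q3 q4
    have hns : ‖s‖ ≤ ε * J := by
      refine (Complex.norm_le_abs_re_add_abs_im s).trans ?_
      have a1 : |s.re| ≤ ε * J / 2 := abs_le.mpr ⟨by linarith, by linarith⟩
      have a2 : |s.im| ≤ ε * J / 2 := abs_le.mpr ⟨by linarith, by linarith⟩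
      linarith
    unfold rr
    rw [norm_mul, norm_inv, Complex.norm_natCast, inv_mul_le_iff₀ hJ']
    linarith
  · intro v hv w hw hvw
    rw [← norm_fourier_sub_eq]
    by_contra hcon
    push Not at hcon
    have h3 := Fj_near hM0 _ hcon
    have h4 : f2 (v, w) x ≤ ∑ q ∈ V.offDiag, f2 q x :=
      Finset.single_le_sum (f := fun q => f2 q x) (fun q _ => p2 q)
        (by rw [Finset.mem_offDiag]; exact ⟨hv, hw, hvw⟩)
    have h5 : f2 (v, w) x < 1 := by linarith
    simp only [hf2] at h5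
    have h6 : (4 / (M0:ℝ)) * ((M0:ℝ) / 4) ≤ (4 / (M0:ℝ)) * Fj M0 (tau x v - tau x w) := by gcongr
    have h7 : (4 / (M0:ℝ)) * ((M0:ℝ) / 4) = 1 := by field_simp
    linarith

end Pool.Agent.R194.Raj
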