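import Mathlib

open Filter Topology

namespace Pool.Agent.R194.Raj

lemma spectrum_eq_disc {H : Type*} [NormedAddCommGroup H] [NormedSpace ℂ H] [CompleteSpace H]
    (T : H →L[ℂ] H) (h1 : ‖T‖ ≤ 1)
    (h2 : ∀ lam : ℂ, ‖lam‖ ≤ 1 → ∀ η : ℝ, 0 < η → ∃ g : H, 0 < ‖g‖ ∧ ‖T g - lam • g‖ ≤ η * ‖g‖) :
    spectrum ℂ T = Metric.closedBall 0 1 := by
  apply Set.Subset.antisymm
  · refine (spectrum.subset_closedBall_norm_mul T).trans (Metric.closedBall_subset_closedBall ?_)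
    have h2 : ‖(1 : H →L[ℂ] H)‖ ≤ 1 := ContinuousLinearMap.norm_id_le
    have h3 := norm_nonneg T
    have h4 := norm_nonneg (1 : H →L[ℂ] H)
    nlinarith
  · intro lam hlam
    rw [mem_closedBall_zero_iff] at hlam
    rw [spectrum.mem_iff]
    intro hunit
    obtain ⟨u, hu⟩ := hunit
    set B : H →L[ℂ] H := ((u⁻¹ : (H →L[ℂ] H)ˣ) : H →L[ℂ] H) with hB
    have hBu : B * (algebraMap ℂ (H →L[ℂ] H) lam - T) = 1 := by
      rw [← hu, hB]; exact u.inv_mul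
    have hη : 0 < 1 / (2 * (‖B‖ + 1)) := by positivity
    obtain ⟨g, hg0, hg⟩ := h2 lam hlam _ hη
    have e3 : (algebraMap ℂ (H →L[ℂ] H) lam - T) g = -(T g - lam • g) := by
      rw [Algebra.algebraMap_eq_smul_one]
      simp
    have e5 : ‖g‖ ≤ ‖B‖ * ‖T g - lam • g‖ := by
      have : g = B ((algebraMap ℂ (H →L[ℂ] H) lam - T) g) := by
        have h := congrArg (fun A : H →L[ℂ] H => A g) hBu
        exact h.symm
      calc ‖g‖ = ‖B ((algebraMap ℂ (H →L[ℂ] H) lam - T) g)‖ := by rw [← this]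
        _ ≤ ‖B‖ * ‖(algebraMap ℂ (H →L[ℂ] H) lam - T) g‖ := B.le_opNorm _
        _ = _ := by rw [e3, norm_neg]
    have hBn := norm_nonneg B
    have e6 : ‖B‖ * ‖T g - lam • g‖ ≤ ‖B‖ * (1 / (2 * (‖B‖ + 1)) * ‖g‖) := by gcongr
    have e7 : ‖B‖ * (1 / (2 * (‖B‖ + 1)) * ‖g‖) ≤ (1 / 2) * ‖g‖ := by
      rw [← mul_assoc]
      gcongr
      rw [mul_one_div, div_le_div_iff₀ (by positivity) (by norm_num)]
      linarith
    linarith

end Pool.Agent.R194.Raj
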