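import Pool.Agent.R194.Raj.Det

open MeasureTheory AddCircle Filter Topology ComplexConjugate
open scoped Real BigOperators

namespace Pool.Agent.R194.Raj

variable {T : ℝ} [hT : Fact (0 < T)]

lemma exists_params (T : ℝ) [hT : Fact (0 < T)] {K : ℕ} (hK : 0 < K) {ε : ℝ} (hε : 0 < ε) :
    ∃ (J M D : ℕ) (Δ : ℝ) (x : Fin J → AddCircle T), 0 < J ∧ 0 < M ∧ 0 < D ∧ 0 < Δ ∧
      64 ≤ M * Δ ^ 2 ∧ 4 * M ^ 2 * K ≤ D ∧ (∀ n : ℕ, 1 ≤ n → n < D → ‖rr x n‖ ≤ ε) ∧
      ∀ v w : Fin J → ℕ, v ≠ w → ∑ j, v j < K → ∑ j, w j < K →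
        Δ ≤ ‖fourier 1 (tau x v) - fourier 1 (tau x w)‖ := by
  classical
  set b : ℝ := ε ^ 2 / 8 with hb
  have hb0 : 0 < b := by positivity
  set C : ℝ := 4 * 64 ^ 2 * 16 ^ 4 * (K:ℝ) ^ 9 with hC
  have hlim : Tendsto (fun J : ℕ => 4 * (C * (J:ℝ) ^ (8 * K)) * Real.exp (-b * J)) atTop (𝓝 0) := by
    have h1 := Real.tendsto_pow_mul_exp_neg_atTop_nhds_zero (8 * K)
    have h2 : Tendsto (fun J : ℕ => b * (J:ℝ)) atTop atTop :=
      tendsto_natCast_atTop_atTop.const_mul_atTop hb0
    have h3 := (h1.comp h2).const_mul (4 * C / b ^ (8 * K))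
    rw [mul_zero] at h3
    refine h3.congr fun J => ?_
    simp only [Function.comp]
    rw [mul_pow, neg_mul]
    field_simp
  obtain ⟨J, hJ1, hJ2⟩ := ((hlim.eventually (gt_mem_nhds (show (0:ℝ) < 1/2 by norm_num))).and
    (eventually_ge_atTop 1)).exists
  set M0 : ℕ := 16 * (K * J ^ K) ^ 2 with hM0
  have hM0p : 0 < M0 := by positivity
  set M : ℕ := 64 * M0 ^ 2 with hM
  set D : ℕ := 4 * M ^ 2 * K with hD
  have hMp : 0 < M := by positivity
  have hDp : 0 < D := by positivity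
  have hDr : (D:ℝ) = C * (J:ℝ) ^ (8 * K) := by
    rw [hD, hM, hM0, hC]
    push_cast
    ring
  set V : Finset (Fin J → ℕ) := (Finset.range K).biUnion
    (fun k => Finset.piAntidiag (Finset.univ : Finset (Fin J)) k) with hV
  have hVc : V.card ≤ K * J ^ K := by
    rw [hV]
    refine Finset.card_biUnion_le.trans ?_
    calc _ ≤ ∑ k ∈ Finset.range K, J ^ K := by
          refine Finset.sum_le_sum fun k hk => (card_piAntidiag_le J k).trans ?_
          exact Nat.pow_le_pow_right hJ2 (Finset.mem_range.mp hk).le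
      _ = K * J ^ K := by simp
  obtain ⟨x, hx1, hx2⟩ := exists_good T (J := J) (D := D) hM0p hε V
    (by rw [hDr]; simpa [hb] using hJ1)
    (by
      have : 16 * V.card ^ 2 ≤ M0 := by
        rw [hM0]
        have := Nat.pow_le_pow_left hVc 2
        omega
      exact_mod_cast this)
  refine ⟨J, M, D, 1 / M0, x, hJ2, hMp, hDp, by positivity, ?_, le_rfl, hx1, ?_⟩
  · rw [hM]
    have : (M0:ℝ) ≠ 0 := by positivity
    push_cast
    field_simp
    norm_num
  · intro v w hvw hv hw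
    apply hx2 v _ w _ hvw
    · rw [hV, Finset.mem_biUnion]
      exact ⟨∑ j, v j, Finset.mem_range.mpr hv, by simp⟩
    · rw [hV, Finset.mem_biUnion]
      exact ⟨∑ j, w j, Finset.mem_range.mpr hw, by simp⟩

lemma lemmaA (T : ℝ) [hT : Fact (0 < T)] {lam : ℂ} (hl : ‖lam‖ ≤ 1) {ε η : ℝ} (hε : 0 < ε) (hη : 0 < η) :
    ∃ (D : ℕ) (N : ℤ → ℂ), Dens T D N ∧ (∀ n : ℤ, n ≠ 0 → ‖N n‖ ≤ ε) ∧
      ∃ S : Finset ℤ, (∀ n ∈ S, 1 ≤ n) ∧ ∃ F : ℤ → ℂ, 0 < nrm (W S F : C(AddCircle T, ℂ)) ∧
        nrm (W S (fun n => (N n - lam) * F n) : C(AddCircle T, ℂ)) ≤ η * nrm (W S F : C(AddCircle T, ℂ)) := by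
  obtain ⟨K, hK⟩ := exists_nat_gt (6 / η)
  have hKp : 0 < K := by
    have : (0:ℝ) < K := lt_trans (by positivity) hK
    exact_mod_cast this
  obtain ⟨ω, hω, hlam⟩ : ∃ ω : ℂ, ‖ω‖ = 1 ∧ lam = (‖lam‖ : ℂ) * ω := by
    by_cases h : lam = 0
    · exact ⟨1, by simp, by simp [h]⟩
    · have hn : ‖lam‖ ≠ 0 := norm_ne_zero_iff.mpr h
      refine ⟨lam / ‖lam‖, ?_, ?_⟩
      · rw [norm_div, Complex.norm_real, norm_norm, div_self hn]
      · have : (‖lam‖ : ℂ) ≠ 0 := by exact_mod_cast hn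
        field_simp
  obtain ⟨J, M, D, Δ, x, hJ, hM, hD, hΔ, hMΔ, hMD, hr, hsep⟩ := exists_params T hKp hε
  have hlow := FF_lower hJ x hω K hM hΔ hMΔ hsep
  have hup := FF_upper hJ x hω (norm_nonneg lam) hl K hM hD hMD
  rw [← hlam] at hup
  refine ⟨D, NN x ‖lam‖ D, NN_dens hJ x (norm_nonneg _) hl hD, ?_, Finset.Icc 1 (2 * M : ℤ), ?_,
    FF x ω K M, ?_, ?_⟩
  · intro n hn
    have hsmall : ‖rr x n * Fc D n‖ ≤ ε := by
      by_cases hnD : (D:ℤ) ≤ |n|
      · unfold Fc
        rw [cF_eq_zero D n hnD]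
        simpa using hε.le
      · push Not at hnD
        rw [norm_mul]
        have h1 := norm_Fc_le hD n
        have h2 : ‖rr x n‖ ≤ ε := by
          rcases le_or_gt 0 n with h | h
          · obtain ⟨k, rfl⟩ := Int.eq_ofNat_of_zero_le h
            apply hr k (by omega)
            rw [abs_of_nonneg h] at hnD
            omega
          · obtain ⟨k, hk⟩ := Int.eq_ofNat_of_zero_le (show 0 ≤ -n by omega)
            have hnk : n = -(k:ℤ) := by omega
            rw [hnk, rr_neg, RCLike.norm_conj]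
            apply hr k (by omega)
            rw [abs_of_neg h] at hnD
            omega
        calc ‖rr x n‖ * ‖Fc D n‖ ≤ ε * 1 := by gcongr
          _ = ε := mul_one _
    unfold NN
    rw [if_neg hn, mul_zero, zero_add, norm_mul, Complex.norm_real, norm_norm]
    calc ‖lam‖ * ‖rr x n * Fc D n‖ ≤ 1 * ε := by gcongr
      _ = ε := one_mul _
  · intro n hn
    exact (Finset.mem_Icc.mp hn).1
  · have : (0:ℝ) < K / 2 := by positivity
    linarith
  · refine hup.trans ?_
    have h1 : η * (K / 2) ≤ η * nrm (W (Finset.Icc 1 (2 * M : ℤ)) (FF x ω K M) : C(AddCircle T, ℂ)) := by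
      gcongr
    have h2 : 3 ≤ η * (K / 2) := by
      rw [div_lt_iff₀ hη] at hK
      linarith
    linarith

lemma nrm_dilate (S : Finset ℤ) (b : ℤ → ℂ) {q : ℤ} (hq : q ≠ 0) :
    nrm (W (S.image (fun l => q * l)) b : C(AddCircle T, ℂ)) =
      nrm (W S (fun l => b (q * l)) : C(AddCircle T, ℂ)) := by
  have h1 : ∀ t : AddCircle T, W (S.image (fun l => q * l)) b t = W S (fun l => b (q * l)) (q • t) := by
    intro t
    rw [W_apply, W_apply, Finset.sum_image]
    · refine Finset.sum_congr rfl fun l _ => ?_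
      rw [fourier_smul_arg]
    · intro a _ c _ h
      exact mul_left_cancel₀ hq h
  rw [nrm_eq, nrm_eq]
  simp only [h1]
  have hmp : MeasurePreserving (fun t : AddCircle T => q • t) haarAddCircle haarAddCircle :=
    Measure.measurePreserving_zsmul haarAddCircle hq
  have h2 := integral_map (μ := (haarAddCircle (T := T))) hmp.aemeasurable
    (f := fun t => ‖W S (fun l => b (q * l)) t‖)
    ((show Continuous (fun t : AddCircle T => ‖W S (fun l => b (q * l)) t‖) by fun_prop).aestronglyMeasurable)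
  rw [hmp.map_eq] at h2
  exact h2.symm

lemma step (T : ℝ) [hT : Fact (0 < T)] {d : ℕ} {m : ℤ → ℂ} (hm : Dens T d m) {lam : ℂ} (hl : ‖lam‖ ≤ 1)
    {ε η : ℝ} (hε : 0 < ε) (hη : 0 < η) :
    ∃ (d' : ℕ) (m' : ℤ → ℂ), Dens T d' m' ∧ (∀ n : ℤ, ‖m' n - m n‖ ≤ ε) ∧
      ∃ S : Finset ℤ, (∀ n ∈ S, 1 ≤ n) ∧ ∃ F : ℤ → ℂ, 0 < nrm (W S F : C(AddCircle T, ℂ)) ∧
        nrm (W S (fun n => (m' n - lam) * F n) : C(AddCircle T, ℂ)) ≤ η * nrm (W S F : C(AddCircle T, ℂ)) := by
  classical
  obtain ⟨hm1, hm2, hm3⟩ := hm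
  set L : ℝ := ∑ k ∈ Finset.Icc (-(d:ℤ)) d, ‖m k‖ with hL
  have hLp : 0 < L := by
    have : ‖m 0‖ ≤ L := Finset.single_le_sum (f := fun k => ‖m k‖) (fun k _ => norm_nonneg _)
      (by simp)
    rw [hm2] at this
    simp at this
    linarith
  obtain ⟨D, N, ⟨hN1, hN2, hN3⟩, hNε, S, hS, F, hF0, hF⟩ := lemmaA T hl (ε := ε / L) (by positivity) hη
  set q : ℤ := (d:ℤ) + 1 with hq
  have hq0 : 0 < q := by omega
  set m' : ℤ → ℂ := fun n => ∑ l ∈ Finset.Icc (-(D:ℤ)) D, N l * m (n - q * l) with hm'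
  set d' : ℕ := (d + 1) * D + d with hd'
  have hd'z : (d' : ℤ) = q * D + d := by rw [hd', hq]; push_cast; ring
  have hmul : ∀ l0 : ℤ, m' (q * l0) = N l0 := by
    intro l0
    simp only [hm']
    have hterm : ∀ l : ℤ, l ≠ l0 → N l * m (q * l0 - q * l) = 0 := by
      intro l hl
      rw [hm1, mul_zero]
      rw [← mul_sub, abs_mul, abs_of_pos hq0]
      have : 1 ≤ |l0 - l| := Int.one_le_abs (by omega)
      nlinarith
    by_cases hl0 : l0 ∈ Finset.Icc (-(D:ℤ)) D
    · rw [Finset.sum_eq_single_of_mem l0 hl0 (fun l _ h => hterm l h)]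
      simp [hm2]
    · rw [Finset.sum_eq_zero]
      · rw [hN1]
        rw [Finset.mem_Icc, ← abs_le] at hl0
        omega
      · intro l hl
        apply hterm
        rintro rfl
        exact hl0 hl
  refine ⟨d', m', ⟨?_, ?_, ?_⟩, ?_, S.image (fun l => q * l), ?_, fun n => F (n / q), ?_, ?_⟩
  · intro n hn
    simp only [hm']
    apply Finset.sum_eq_zero
    intro l hl
    rw [hm1, mul_zero]
    rw [Finset.mem_Icc] at hl
    rw [hd'z] at hn
    have h1 : |q * l| ≤ q * D := by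
      rw [abs_mul, abs_of_pos hq0]
      have : |l| ≤ D := abs_le.mpr hl
      gcongr
    have h2 : |n| ≤ |n - q * l| + |q * l| := by
      calc |n| = |(n - q * l) + q * l| := by ring_nf
        _ ≤ _ := abs_add_le _ _
    omega
  · have := hmul 0
    rw [mul_zero] at this
    rw [this, hN2]
  · intro t
    obtain ⟨y1, hy1, hy1'⟩ := hm3 t
    obtain ⟨y2, hy2, hy2'⟩ := hN3 (q • t)
    refine ⟨y2 * y1, by positivity, ?_⟩
    rw [Complex.ofReal_mul, ← hy1', ← hy2']
    simp only [W_apply, hm']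
    simp only [Finset.sum_mul]
    rw [Finset.sum_comm]
    refine Finset.sum_congr rfl fun l hl => ?_
    rw [fourier_smul_arg]
    have e1 : ∑ k ∈ Finset.Icc (-(d:ℤ)) d, m k * fourier k t =
        ∑ n ∈ Finset.Icc (-(d':ℤ)) d', m (n - q * l) * fourier (n - q * l) t := by
      have e2 : ∑ k ∈ Finset.Icc (-(d:ℤ)) d, m k * fourier k t =
          ∑ n ∈ (Finset.Icc (-(d:ℤ)) d).image (fun k => k + q * l), m (n - q * l) * fourier (n - q * l) t := by
        rw [Finset.sum_image]
        · refine Finset.sum_congr rfl fun k _ => ?_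
          rw [add_sub_cancel_right]
        · intro a _ c _ h
          simpa using h
      rw [e2]
      apply Finset.sum_subset
      · intro n hn
        rw [Finset.mem_image] at hn
        obtain ⟨k, hk, rfl⟩ := hn
        rw [Finset.mem_Icc] at hk hl ⊢
        rw [hd'z]
        have h1 : |q * l| ≤ q * D := by
          rw [abs_mul, abs_of_pos hq0]
          have : |l| ≤ D := abs_le.mpr hl
          gcongr
        rw [abs_le] at h1
        constructor <;> linarith [hk.1, hk.2, h1.1, h1.2]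
      · intro n _ hn
        rw [hm1, zero_mul]
        by_contra hcon
        apply hn
        rw [Finset.mem_image]
        refine ⟨n - q * l, ?_, by ring⟩
        rw [Finset.mem_Icc, ← abs_le]
        omega
    rw [e1, Finset.mul_sum]
    refine Finset.sum_congr rfl fun n _ => ?_
    have : fourier n t = fourier (q * l) t * fourier (n - q * l) t := by
      rw [← fourier_add]; congr 2; ring
    rw [this]; ring
  · intro n
    have h0 : (0:ℤ) ∈ Finset.Icc (-(D:ℤ)) D := by simp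
    simp only [hm']
    rw [← Finset.add_sum_erase _ _ h0, hN2, mul_zero, sub_zero, one_mul, add_sub_cancel_left]
    refine (norm_sum_le _ _).trans ?_
    calc ∑ l ∈ (Finset.Icc (-(D:ℤ)) D).erase 0, ‖N l * m (n - q * l)‖
        ≤ ∑ l ∈ (Finset.Icc (-(D:ℤ)) D).erase 0, (ε / L) * ‖m (n - q * l)‖ := by
          refine Finset.sum_le_sum fun l hl => ?_
          rw [norm_mul]
          gcongr
          exact hNε l (Finset.mem_erase.mp hl).1
      _ = (ε / L) * ∑ l ∈ (Finset.Icc (-(D:ℤ)) D).erase 0, ‖m (n - q * l)‖ := by rw [Finset.mul_sum]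
      _ ≤ (ε / L) * L := by
          gcongr
          have e1 : ∑ l ∈ (Finset.Icc (-(D:ℤ)) D).erase 0, ‖m (n - q * l)‖ =
              ∑ k ∈ ((Finset.Icc (-(D:ℤ)) D).erase 0).image (fun l => n - q * l), ‖m k‖ := by
            rw [Finset.sum_image]
            intro a _ c _ h
            simp only [sub_right_inj] at h
            exact mul_left_cancel₀ hq0.ne' h
          rw [e1, ← Finset.sum_filter_of_ne (p := fun k => k ∈ Finset.Icc (-(d:ℤ)) d)]
          · apply Finset.sum_le_sum_of_subset_of_nonneg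
            · intro k hk
              exact (Finset.mem_filter.mp hk).2
            · intro k _ _
              exact norm_nonneg _
          · intro k _ hk
            by_contra hcon
            apply hk
            rw [hm1, norm_zero]
            rw [Finset.mem_Icc, ← abs_le] at hcon
            omega
      _ = ε := by field_simp
  · intro n hn
    rw [Finset.mem_image] at hn
    obtain ⟨l, hl, rfl⟩ := hn
    have := hS l hl
    nlinarith
  · rw [nrm_dilate _ _ hq0.ne']
    simp only [Int.mul_ediv_cancel_left _ hq0.ne']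
    exact hF0
  · rw [nrm_dilate _ _ hq0.ne', nrm_dilate _ _ hq0.ne']
    simp only [Int.mul_ediv_cancel_left _ hq0.ne', hmul]
    exact hF

end Pool.Agent.R194.Raj
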